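import Mathlib

/-!
# Point sets in `PG(2, q)` avoiding a given secant size

Let `O` be a set of lines of `PG(2, q)` and let `S` be the set of points lying on an odd number of
lines of `O`. A line outside `O` meets `S` in a number of points congruent to `|O|` modulo `2`.
We take `a` lines through the vertical point at infinity (the columns `x ∈ A`), `b` lines through
the origin with slopes in `B` and `b` horizontal lines with heights in `B`, where `B` consists of
the first `b` powers of a generator of the multiplicative group. Columns are almost full or almost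
empty, so the vertical point may be added or removed freely, and the size of `S` is tuned by the
number of triple points, that is by the choice of `A`. In even characteristic we also use the
symmetric difference with the line `y = 0` and with a hyperoval (parabola `y = lam * x ^ 2`).
-/

set_option autoImplicit false
open Finset

namespace Pool.Agent.Lib.Helper20.SecantAvoid

section Part1


/-- Affine description of a `k`-avoiding set with `m` points: `S` is the affine part, `M` the set of
slopes (points at infinity other than the vertical one), `e` tells whether the vertical point at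
infinity is used. -/
def Good (F : Type) [Field F] [Fintype F] [DecidableEq F] (k m : ℕ) : Prop :=
  ∃ (S : Finset (F × F)) (M : Finset F) (e : ℕ), e ≤ 1 ∧ S.card + M.card + e = m ∧
   (∀ s t : F, (univ.filter (fun x => (x, s * x + t) ∈ S)).card + (if s ∈ M then 1 else 0) ≠ k) ∧
   (∀ x : F, (univ.filter (fun y => (x, y) ∈ S)).card + e ≠ k) ∧ M.card + e ≠ k

section
variable {F : Type} [Field F]

/-- Homogeneous coordinate vectors of the points. -/
def vec : (F × F) ⊕ (F ⊕ Unit) → (Fin 3 → F)
  | Sum.inl p => ![p.1, p.2, 1]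
  | Sum.inr (Sum.inl s) => ![1, s, 0]
  | Sum.inr (Sum.inr _) => ![0, 1, 0]

lemma vec_ne (p : (F × F) ⊕ (F ⊕ Unit)) : (vec p : Fin 3 → F) ≠ 0 := by
  rcases p with p | s | u
  · intro h; have := congrFun h 2; simp [vec] at this
  · intro h; have := congrFun h 0; simp [vec] at this
  · intro h; have := congrFun h 1; simp [vec] at this

/-- The points of the projective plane. -/
def pt (p : (F × F) ⊕ (F ⊕ Unit)) : Projectivization F (Fin 3 → F) :=
  Projectivization.mk F (vec p) (vec_ne p)

lemma pt_inj : Function.Injective (pt : (F × F) ⊕ (F ⊕ Unit) → Projectivization F (Fin 3 → F)) := by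
  intro p p' h
  unfold pt at h
  rw [Projectivization.mk_eq_mk_iff'] at h
  obtain ⟨a, ha⟩ := h
  have h0 := congrFun ha 0
  have h1 := congrFun ha 1
  have h2 := congrFun ha 2
  rcases p with ⟨x, y⟩ | s | u <;> rcases p' with ⟨x', y'⟩ | s' | u' <;>
    simp [vec] at h0 h1 h2 <;> aesop

lemma mem_pt (W : Submodule F (Fin 3 → F)) (p : (F × F) ⊕ (F ⊕ Unit)) :
    (pt p).submodule ≤ W ↔ vec p ∈ W := by
  unfold pt
  rw [Projectivization.submodule_mk, Submodule.span_singleton_le_iff_mem]

lemma exists_coeffs (W : Submodule F (Fin 3 → F)) (hW : Module.finrank F W = 2) :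
    ∃ a b c : F, (a ≠ 0 ∨ b ≠ 0 ∨ c ≠ 0) ∧ ∀ v : Fin 3 → F, v ∈ W ↔ a * v 0 + b * v 1 + c * v 2 = 0 := by
  have hlt : W < ⊤ := by
    rw [lt_top_iff_ne_top]
    rintro rfl
    rw [finrank_top] at hW
    simp at hW
  obtain ⟨f, hf0, hf⟩ := W.exists_le_ker_of_lt_top hlt
  have hker : W = LinearMap.ker f := by
    apply Submodule.eq_of_le_of_finrank_eq hf
    have h1 := LinearMap.finrank_range_add_finrank_ker f
    have h2 : LinearMap.range f = ⊤ := LinearMap.range_eq_top.mpr (LinearMap.surjective hf0)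
    rw [h2, finrank_top] at h1
    simp at h1
    omega
  have hfv : ∀ v : Fin 3 → F, f v = f (Pi.single 0 1) * v 0 + f (Pi.single 1 1) * v 1 + f (Pi.single 2 1) * v 2 := by
    intro v
    have : v = v 0 • Pi.single (0 : Fin 3) (1 : F) + v 1 • Pi.single (1 : Fin 3) (1 : F)
        + v 2 • Pi.single (2 : Fin 3) (1 : F) := by
      ext i
      fin_cases i <;> simp
    conv_lhs => rw [this]
    simp only [map_add, map_smul, smul_eq_mul]
    ring
  refine ⟨f (Pi.single 0 1), f (Pi.single 1 1), f (Pi.single 2 1), ?_, ?_⟩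
  · by_contra hcon
    push Not at hcon
    apply hf0
    apply LinearMap.ext
    intro v
    rw [hfv v, hcon.1, hcon.2.1, hcon.2.2]
    simp
  · intro v
    rw [hker, LinearMap.mem_ker, hfv v]

end

variable {F : Type} [Field F] [Fintype F] [DecidableEq F]

theorem of_good (k m : ℕ) (h : Good F k m) :
    ∃ S : Set (Projectivization F (Fin 3 → F)), S.ncard = m ∧
        ∀ W : Submodule F (Fin 3 → F), Module.finrank F W = 2 →
          (S ∩ {p : Projectivization F (Fin 3 → F) | p.submodule ≤ W}).ncard ≠ k := by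
  classical
  obtain ⟨S, M, e, he, hm, h1, h2, h3⟩ := h
  obtain ⟨E, hE⟩ : ∃ E : Finset Unit, E.card = e := by
    rcases Nat.lt_or_ge e 1 with h | h
    · exact ⟨∅, by simp; omega⟩
    · exact ⟨Finset.univ, by simp; omega⟩
  set T : Finset ((F × F) ⊕ (F ⊕ Unit)) := S.disjSum (M.disjSum E) with hT
  refine ⟨pt '' (T : Set ((F × F) ⊕ (F ⊕ Unit))), ?_, ?_⟩
  · rw [Set.ncard_image_of_injective _ pt_inj, Set.ncard_coe_finset, hT, Finset.card_disjSum,
      Finset.card_disjSum, hE, ← hm]; ring
  · intro W hW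
    obtain ⟨a, b, c, habc, hmem⟩ := exists_coeffs W hW
    have e1 : (pt '' (T : Set ((F × F) ⊕ (F ⊕ Unit)))) ∩
        {p : Projectivization F (Fin 3 → F) | p.submodule ≤ W}
        = pt '' ((T.filter (fun p => vec p ∈ W) : Finset _) : Set ((F × F) ⊕ (F ⊕ Unit))) := by
      ext q
      simp only [Set.mem_inter_iff, Set.mem_image, Finset.mem_coe, Set.mem_ofPred_eq,
        Finset.coe_filter]
      constructor
      · rintro ⟨⟨p, hp, rfl⟩, hq⟩
        exact ⟨p, ⟨hp, (mem_pt W p).mp hq⟩, rfl⟩
      · rintro ⟨p, ⟨hp, hq⟩, rfl⟩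
        exact ⟨⟨p, hp, rfl⟩, (mem_pt W p).mpr hq⟩
    rw [e1, Set.ncard_image_of_injective _ pt_inj, Set.ncard_coe_finset]
    have e2 : (T.filter (fun p => vec p ∈ W)).card
        = (S.filter (fun p => a * p.1 + b * p.2 + c = 0)).card
          + (M.filter (fun s => a + b * s = 0)).card + (if b = 0 then e else 0) := by
      rw [Finset.card_filter, hT, Finset.sum_disjSum, Finset.sum_disjSum, Finset.card_filter,
        Finset.card_filter]
      have t1 : ∀ p : F × F, (vec (Sum.inl p : (F × F) ⊕ (F ⊕ Unit)) ∈ W) ↔ a * p.1 + b * p.2 + c = 0 := by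
        intro p
        rw [hmem]; simp [vec]
      have t2 : ∀ s : F, (vec (Sum.inr (Sum.inl s) : (F × F) ⊕ (F ⊕ Unit)) ∈ W) ↔ a + b * s = 0 := by
        intro p
        rw [hmem]; simp [vec]
      have t3 : ∀ s : Unit, (vec (Sum.inr (Sum.inr s) : (F × F) ⊕ (F ⊕ Unit)) ∈ W) ↔ b = 0 := by
        intro p
        rw [hmem]; simp [vec]
      simp only [t1, t2, t3]
      rw [Finset.sum_const, hE]
      split_ifs <;> simp [add_assoc]
    rw [e2]
    by_cases hb : b = 0
    · subst hb
      by_cases ha : a = 0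
      · subst ha
        have hc : c ≠ 0 := by simpa using habc
        have : (S.filter (fun p => (0 : F) * p.1 + 0 * p.2 + c = 0)) = ∅ := by
          apply Finset.filter_eq_empty_iff.mpr
          intro p _
          simpa using hc
        rw [this]
        simpa using h3
      · have f1 : (S.filter (fun p => a * p.1 + 0 * p.2 + c = 0)).card
            = (univ.filter (fun y => (-c / a, y) ∈ S)).card := by
          refine Finset.card_bij' (fun p _ => p.2) (fun y _ => (-c / a, y)) ?_ ?_ ?_ ?_
          · intro p hp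
            simp only [mem_filter, mem_univ, true_and] at hp ⊢
            have : p.1 = -c / a := by
              rw [eq_div_iff ha]; linear_combination hp.2
            rw [← this]; exact hp.1
          · intro y hy
            simp only [mem_filter, mem_univ, true_and] at hy ⊢
            refine ⟨hy, ?_⟩
            field_simp
            ring
          · intro p hp
            simp only [mem_filter, mem_univ, true_and] at hp ⊢
            have : p.1 = -c / a := by
              rw [eq_div_iff ha]; linear_combination hp.2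
            rw [← this]
          · intro y hy; rfl
        have f2 : (M.filter (fun s => a + (0 : F) * s = 0)) = ∅ := by
          apply Finset.filter_eq_empty_iff.mpr
          intro p _
          simpa using ha
        rw [f1, f2]
        simpa using h2 (-c / a)
    · have f1 : (S.filter (fun p => a * p.1 + b * p.2 + c = 0)).card
          = (univ.filter (fun x => (x, (-a / b) * x + (-c / b)) ∈ S)).card := by
        refine Finset.card_bij' (fun p _ => p.1) (fun x _ => (x, (-a / b) * x + (-c / b))) ?_ ?_ ?_ ?_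
        · intro p hp
          simp only [mem_filter, mem_univ, true_and] at hp ⊢
          have : p.2 = (-a / b) * p.1 + (-c / b) := by
            field_simp
            linear_combination hp.2
          rw [← this]; exact hp.1
        · intro x hx
          simp only [mem_filter, mem_univ, true_and] at hx ⊢
          refine ⟨hx, ?_⟩
          field_simp
          ring
        · intro p hp
          simp only [mem_filter, mem_univ, true_and] at hp ⊢
          have : p.2 = (-a / b) * p.1 + (-c / b) := by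
            field_simp
            linear_combination hp.2
          rw [← this]
        · intro x hx; rfl
      have f2 : (M.filter (fun s => a + b * s = 0)).card = if (-a / b) ∈ M then 1 else 0 := by
        have : (M.filter (fun s => a + b * s = 0)) = M.filter (fun s => s = -a / b) := by
          apply Finset.filter_congr
          intro s _
          rw [eq_div_iff hb]
          constructor
          · intro h; linear_combination h
          · intro h; linear_combination h
        rw [this, Finset.filter_eq']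
        split_ifs <;> simp
      rw [f1, f2, if_neg hb, add_zero]
      exact h1 _ _


end Part1

section Part2


variable {F : Type} [Field F] [Fintype F] [DecidableEq F]

theorem good_compl {k m : ℕ} (h : Good F k m) (hk : k ≤ Fintype.card F + 1)
    (hm : m ≤ Fintype.card F ^ 2 + Fintype.card F + 1) :
    Good F (Fintype.card F + 1 - k) (Fintype.card F ^ 2 + Fintype.card F + 1 - m) := by
  obtain ⟨S, M, e, he, hsum, h1, h2, h3⟩ := h
  have cS : Sᶜ.card = Fintype.card F ^ 2 - S.card := by
    rw [Finset.card_compl, Fintype.card_prod, sq]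
  have cM : Mᶜ.card = Fintype.card F - M.card := Finset.card_compl M
  have lS : S.card ≤ Fintype.card F ^ 2 := by
    have := S.card_le_univ
    rwa [Fintype.card_prod, ← sq] at this
  have lM : M.card ≤ Fintype.card F := M.card_le_univ
  refine ⟨Sᶜ, Mᶜ, 1 - e, by omega, ?_, ?_, ?_, ?_⟩
  · rw [cS, cM]; omega
  · intro s t
    have e1 : (univ.filter (fun x => (x, s * x + t) ∈ Sᶜ)).card
        = Fintype.card F - (univ.filter (fun x => (x, s * x + t) ∈ S)).card := by
      rw [← Finset.card_compl, Finset.compl_filter]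
      congr 1
      ext x; simp
    have l1 : (univ.filter (fun x => (x, s * x + t) ∈ S)).card ≤ Fintype.card F := Finset.card_le_univ _
    rw [e1]
    have := h1 s t
    by_cases hs : s ∈ M
    · have hs' : s ∉ Mᶜ := by simpa using hs
      rw [if_pos hs] at this
      rw [if_neg hs']; omega
    · have hs' : s ∈ Mᶜ := by simpa using hs
      rw [if_neg hs] at this
      rw [if_pos hs']; omega
  · intro x
    have e1 : (univ.filter (fun y => (x, y) ∈ Sᶜ)).card
        = Fintype.card F - (univ.filter (fun y => (x, y) ∈ S)).card := by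
      rw [← Finset.card_compl, Finset.compl_filter]
      congr 1
      ext x; simp
    have l1 : (univ.filter (fun y => (x, y) ∈ S)).card ≤ Fintype.card F := Finset.card_le_univ _
    rw [e1]
    have := h2 x
    omega
  · rw [cM]; omega

lemma colset (a r : ℕ) (ha : a < Fintype.card F) (hr : r ≤ Fintype.card F) :
    ∃ S : Finset (F × F), S.card = a * Fintype.card F + r ∧
      (∀ s t : F, (univ.filter (fun x => (x, s * x + t) ∈ S)).card ≤ a + 1) ∧
      ∀ x : F, (univ.filter (fun y => (x, y) ∈ S)).card = Fintype.card F ∨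
        (univ.filter (fun y => (x, y) ∈ S)).card = r ∨ (univ.filter (fun y => (x, y) ∈ S)).card = 0 := by
  obtain ⟨X, -, hX⟩ := Finset.exists_subset_card_eq (s := (univ : Finset F)) (n := a)
    (by rw [Finset.card_univ]; omega)
  obtain ⟨Y, -, hY⟩ := Finset.exists_subset_card_eq (s := (univ : Finset F)) (n := r)
    (by rw [Finset.card_univ]; omega)
  have hXc : Xᶜ.Nonempty := by
    rw [← Finset.card_pos, Finset.card_compl, hX]; omega
  obtain ⟨x0, hx0⟩ := hXc
  rw [Finset.mem_compl] at hx0
  refine ⟨(X ×ˢ univ) ∪ ({x0} ×ˢ Y), ?_, ?_, ?_⟩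
  · rw [Finset.card_union_of_disjoint, Finset.card_product, Finset.card_product, hX, hY,
      Finset.card_univ, Finset.card_singleton, one_mul]
    rw [Finset.disjoint_left]
    rintro ⟨x, y⟩ h1 h2
    simp only [mem_product, mem_univ, and_true, mem_singleton] at h1 h2
    exact hx0 (h2.1 ▸ h1)
  · intro s t
    calc _ ≤ (insert x0 X).card := by
          apply Finset.card_le_card
          intro x hx
          simp only [mem_filter, mem_univ, true_and, mem_union, mem_product, mem_singleton,
            and_true] at hx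
          rcases hx with h | h
          · exact Finset.mem_insert_of_mem h
          · rw [h.1]; exact Finset.mem_insert_self _ _
      _ ≤ a + 1 := by rw [← hX]; exact Finset.card_insert_le _ _
  · intro x
    by_cases h1 : x ∈ X
    · left
      have : (univ.filter (fun y => (x, y) ∈ (X ×ˢ univ) ∪ ({x0} ×ˢ Y))) = univ := by
        apply Finset.filter_true_of_mem
        intro y _
        simp [h1]
      rw [this, Finset.card_univ]
    · right
      by_cases h2 : x = x0
      · left
        subst h2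
        have : (univ.filter (fun y => (x, y) ∈ (X ×ˢ univ) ∪ ({x} ×ˢ Y))) = Y := by
          ext y; simp [h1]
        rw [this, hY]
      · right
        have : (univ.filter (fun y => (x, y) ∈ (X ×ˢ univ) ∪ ({x0} ×ˢ Y))) = ∅ := by
          apply Finset.filter_eq_empty_iff.mpr
          intro y _
          simp [h1]
          intro _ h
          exact h2 h.symm
        rw [this, Finset.card_empty]

theorem good_col {k m : ℕ} (hk3 : 3 ≤ k) (hkq : k + 1 ≤ Fintype.card F)
    (hm : m ≤ (k - 2) * Fintype.card F + 1) : Good F k m := by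
  set q := Fintype.card F with hq
  set a := m / q with ha
  set r := m % q with hr
  have hmar : m = a * q + r := by rw [ha, hr, mul_comm]; exact (Nat.div_add_mod m q).symm
  have hrq : r < q := Nat.mod_lt _ (by omega)
  have hak : a ≤ k - 2 := by
    by_contra hcon
    have : k - 1 ≤ a := by omega
    have : (k - 1) * q ≤ a * q := Nat.mul_le_mul_right q this
    have h2 : (k - 1) * q = (k - 2) * q + q := by
      have : k - 1 = (k - 2) + 1 := by omega
      rw [this, Nat.add_mul, one_mul]
    omega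
  by_cases hrk : r = k
  · obtain ⟨S, hS, hl, hc⟩ := colset (F := F) a (r - 1) (by omega) (by omega)
    have hak3 : a + 1 ≤ k - 2 := by
      by_contra hcon
      have : a = k - 2 := by omega
      rw [this] at hmar
      omega
    refine ⟨S, {0}, 0, by omega, ?_, ?_, ?_, ?_⟩
    · rw [hS, Finset.card_singleton, hmar, ← hq]; omega
    · intro s t
      have := hl s t
      split_ifs <;> omega
    · intro x
      rcases hc x with h | h | h <;> rw [h] <;> omega
    · rw [Finset.card_singleton]; omega
  · obtain ⟨S, hS, hl, hc⟩ := colset (F := F) a r (by omega) (by omega)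
    refine ⟨S, ∅, 0, by omega, ?_, ?_, ?_, ?_⟩
    · rw [hS, Finset.card_empty, hmar, ← hq]; omega
    · intro s t
      have := hl s t
      simp only [Finset.notMem_empty, if_false]
      omega
    · intro x
      rcases hc x with h | h | h <;> rw [h] <;> omega
    · rw [Finset.card_empty]; omega

/-! ### indicator functions with values in `ZMod 2` -/

/-- Indicator of a proposition in `ZMod 2`. -/
noncomputable def ind (p : Prop) : ZMod 2 := by
  classical exact if p then 1 else 0

lemma ind_pos {p : Prop} (h : p) : ind p = 1 := by unfold ind; simp [h]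
lemma ind_neg {p : Prop} (h : ¬ p) : ind p = 0 := by unfold ind; simp [h]

lemma z2_cases (v : ZMod 2) : v = 0 ∨ v = 1 := by
  revert v; decide

lemma card_mod2 {α : Type} [Fintype α] (v : α → ZMod 2) [DecidablePred fun x => v x = 1] :
    ((univ.filter (fun x => v x = 1)).card : ZMod 2) = ∑ x, v x := by
  rw [Finset.card_filter, Nat.cast_sum]
  apply Finset.sum_congr rfl
  intro x _
  rcases z2_cases (v x) with h | h <;> simp [h]

lemma sum_ind {α : Type} [Fintype α] (p : α → Prop) [DecidablePred p] :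
    ∑ x, ind (p x) = ((univ.filter p).card : ZMod 2) := by
  rw [Finset.card_filter, Nat.cast_sum]
  apply Finset.sum_congr rfl
  intro x _
  by_cases h : p x <;> simp [h, ind]

lemma sum_ind_mem (B : Finset F) : ∑ x, ind (x ∈ B) = (B.card : ZMod 2) := by
  rw [sum_ind]; congr 2; ext x; simp

lemma card_eq_zero_of_even {B : Finset F} (h : Even B.card) : (B.card : ZMod 2) = 0 := by
  obtain ⟨r, hr⟩ := h
  rw [hr]; push_cast
  exact CharTwo.add_self_eq_zero _

lemma add_self2 (v : ZMod 2) : v + v = 0 := CharTwo.add_self_eq_zero v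

/-- The basic indicator: lines through the origin with slope in `B`, horizontal lines with
height in `C`. -/
noncomputable def w (B C : Finset F) (x y : F) : ZMod 2 := ind (y / x ∈ B) + ind (y ∈ C)

/-- Parity of `w` along a non-vertical line. -/
lemma w_line (B C : Finset F) (hB0 : (0 : F) ∉ B) (hB : Even B.card) (hC : Even C.card) (s t : F) :
    ∑ x, w B C x (s * x + t) + ind (s ∈ B) =
      (if t = 0 then (Fintype.card F : ZMod 2) * ind (s ∈ B) else 0)
      + (if s = 0 then (Fintype.card F : ZMod 2) * ind (t ∈ C) else 0) := by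
  unfold w
  rw [Finset.sum_add_distrib]
  have h1 : ∑ x, ind (s * x + t ∈ C) =
      (if s = 0 then (Fintype.card F : ZMod 2) * ind (t ∈ C) else 0) := by
    by_cases hs : s = 0
    · subst hs
      simp only [zero_mul, zero_add, if_true]
      rw [Finset.sum_const, Finset.card_univ, nsmul_eq_mul]
    · rw [if_neg hs]
      have : ∑ x, ind (s * x + t ∈ C) = ∑ y, ind (y ∈ C) := by
        apply Fintype.sum_bijective (fun x => s * x + t)
        · constructor
          · intro x y hxy
            simpa [hs] using hxy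
          · intro y
            exact ⟨(y - t) / s, by field_simp; ring⟩
        · intro x; rfl
      rw [this, sum_ind_mem, card_eq_zero_of_even hC]
  have h2 : ∑ x, ind ((s * x + t) / x ∈ B) + ind (s ∈ B) =
      (if t = 0 then (Fintype.card F : ZMod 2) * ind (s ∈ B) else 0) := by
    have hsplit : ∀ f : F → ZMod 2, ∑ x, f x = f 0 + ∑ x ∈ univ.erase 0, f x := by
      intro f
      rw [Finset.add_sum_erase _ _ (Finset.mem_univ _)]
    rw [hsplit]
    have z : ind ((s * 0 + t) / 0 ∈ B) = 0 := by
      apply ind_neg; simpa using hB0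
    rw [z, zero_add]
    by_cases ht : t = 0
    · subst ht
      rw [if_pos rfl]
      have : ∑ x ∈ univ.erase (0 : F), ind ((s * x + 0) / x ∈ B) = ∑ x ∈ univ.erase (0 : F), ind (s ∈ B) := by
        apply Finset.sum_congr rfl
        intro x hx
        have : x ≠ 0 := Finset.ne_of_mem_erase hx
        rw [add_zero, mul_div_assoc, div_self this, mul_one]
      rw [this]
      have h3 : ∑ x : F, ind (s ∈ B) = (Fintype.card F : ZMod 2) * ind (s ∈ B) := by
        rw [Finset.sum_const, Finset.card_univ, nsmul_eq_mul]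
      rw [← h3, hsplit, add_comm]
    · rw [if_neg ht]
      have h4 : ∑ x, ind (s + t / x ∈ B) = 0 := by
        have : ∑ x, ind (s + t / x ∈ B) = ∑ y, ind (y ∈ B) := by
          apply Fintype.sum_bijective (fun x => s + t / x)
          · constructor
            · intro x y hxy
              simp only [add_right_inj] at hxy
              by_cases hx : x = 0
              · subst hx
                rw [div_zero] at hxy
                have := (div_eq_zero_iff.mp hxy.symm)
                tauto
              · by_cases hy : y = 0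
                · subst hy
                  rw [div_zero] at hxy
                  have := (div_eq_zero_iff.mp hxy)
                  tauto
                · rw [div_eq_div_iff hx hy] at hxy
                  exact (mul_left_cancel₀ ht hxy).symm
            · intro y
              by_cases hy : y = s
              · exact ⟨0, by simp [hy]⟩
              · have : y - s ≠ 0 := sub_ne_zero.mpr hy
                refine ⟨t / (y - s), ?_⟩
                field_simp
                ring
          · intro x; rfl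
        rw [this, sum_ind_mem, card_eq_zero_of_even hB]
      rw [hsplit] at h4
      simp only [div_zero, add_zero] at h4
      rw [← h4, add_comm]
      congr 1
      apply Finset.sum_congr rfl
      intro x hx
      have : x ≠ 0 := Finset.ne_of_mem_erase hx
      congr 2
      field_simp
  rw [h1, ← h2]; ring


end Part2

section Part3


variable {F : Type} [Field F] [Fintype F] [DecidableEq F]

/-- The set obtained from an indicator `W` by complementing the columns in `A`. -/
noncomputable def setOf' (A : Finset F) (W : F → F → ZMod 2) : Finset (F × F) :=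
  univ.filter (fun p : F × F => ind (p.1 ∈ A) + W p.1 p.2 = 1)

/-- Column sizes of an indicator. -/
def col (W : F → F → ZMod 2) (x : F) : ℕ := (univ.filter (fun y => W x y = 1)).card

lemma col_le (W : F → F → ZMod 2) (x : F) : col W x ≤ Fintype.card F := Finset.card_le_univ _

lemma col_mem (A : Finset F) (W : F → F → ZMod 2) {x : F} (hx : x ∈ A) :
    (univ.filter (fun y => (x, y) ∈ setOf' A W)).card = Fintype.card F - col W x := by
  unfold col
  rw [← Finset.card_compl, Finset.compl_filter]
  congr 1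
  ext y
  simp only [setOf', mem_filter, mem_univ, true_and, ind_pos hx]
  rcases z2_cases (W x y) with h | h <;> rw [h] <;> decide

lemma col_notMem (A : Finset F) (W : F → F → ZMod 2) {x : F} (hx : x ∉ A) :
    (univ.filter (fun y => (x, y) ∈ setOf' A W)).card = col W x := by
  unfold col
  congr 1
  ext y
  simp only [setOf', mem_filter, mem_univ, true_and, ind_neg hx, zero_add]

lemma card_setOf' (A : Finset F) (W : F → F → ZMod 2) :
    ((setOf' A W).card : ℤ) = ∑ x, (col W x : ℤ) + ∑ x ∈ A, ((Fintype.card F : ℤ) - 2 * col W x) := by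
  have h1 : (setOf' A W).card = ∑ x, (univ.filter (fun y => (x, y) ∈ setOf' A W)).card := by
    conv_lhs => rw [← Finset.filter_univ_mem (setOf' A W), Finset.card_filter, Fintype.sum_prod_type]
    apply Finset.sum_congr rfl
    intro x _
    rw [Finset.card_filter]
  rw [h1]
  push_cast
  rw [← Finset.sum_add_sum_compl A, ← Finset.sum_add_sum_compl A (fun x => (col W x : ℤ))]
  have h2 : ∑ x ∈ A, ((univ.filter (fun y => (x, y) ∈ setOf' A W)).card : ℤ)
      = ∑ x ∈ A, ((Fintype.card F : ℤ) - col W x) := by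
    apply Finset.sum_congr rfl
    intro x hx
    rw [col_mem A W hx, Nat.cast_sub (col_le W x)]
  have h3 : ∑ x ∈ Aᶜ, ((univ.filter (fun y => (x, y) ∈ setOf' A W)).card : ℤ)
      = ∑ x ∈ Aᶜ, (col W x : ℤ) := by
    apply Finset.sum_congr rfl
    intro x hx
    rw [col_notMem A W (by simpa using hx)]
  rw [h2, h3]
  have h4 : ∑ x ∈ A, ((Fintype.card F : ℤ) - 2 * col W x)
      = ∑ x ∈ A, ((Fintype.card F : ℤ) - col W x) - ∑ x ∈ A, (col W x : ℤ) := by
    rw [← Finset.sum_sub_distrib]
    apply Finset.sum_congr rfl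
    intro x _; ring
  rw [h4]; ring

lemma line_parity (A : Finset F) (W : F → F → ZMod 2) (s t : F) :
    ((univ.filter (fun x => (x, s * x + t) ∈ setOf' A W)).card : ZMod 2)
      = (A.card : ZMod 2) + ∑ x, W x (s * x + t) := by
  have : (univ.filter (fun x => (x, s * x + t) ∈ setOf' A W))
      = univ.filter (fun x => ind (x ∈ A) + W x (s * x + t) = 1) := by
    ext x; simp [setOf']
  rw [this, card_mod2, Finset.sum_add_distrib, sum_ind_mem]

lemma card_ind2 {α : Type} [Fintype α] (P Q : α → Prop) [DecidablePred P] [DecidablePred Q] :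
    (univ.filter (fun x => ind (P x) + ind (Q x) = 1)).card
      + 2 * (univ.filter (fun x => P x ∧ Q x)).card
      = (univ.filter P).card + (univ.filter Q).card := by
  simp only [Finset.card_filter]
  rw [Finset.mul_sum, ← Finset.sum_add_distrib, ← Finset.sum_add_distrib]
  apply Finset.sum_congr rfl
  intro x _
  by_cases h1 : P x <;> by_cases h2 : Q x <;> simp [h1, h2, ind]

lemma card_div_mem (B : Finset F) {x : F} (hx : x ≠ 0) :
    (univ.filter (fun y => y / x ∈ B)).card = B.card := by
  apply Finset.card_bij' (fun y _ => y / x) (fun y _ => y * x)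
  · intro y hy; simpa using hy
  · intro y hy
    simp only [mem_filter, mem_univ, true_and]
    rwa [mul_div_assoc, div_self hx, mul_one]
  · intro y hy; field_simp
  · intro y hy; field_simp

lemma card_div_mem_zero (B : Finset F) (hB0 : (0 : F) ∉ B) :
    (univ.filter (fun y : F => y / 0 ∈ B)).card = 0 := by
  simp [hB0]

lemma card_div_mem' (B : Finset F) {y : F} (hy : y ≠ 0) :
    (univ.filter (fun x => y / x ∈ B)).card = B.card := by
  apply Finset.card_bij' (fun x _ => y / x) (fun x _ => y / x)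
  · intro x hx; simpa using hx
  · intro x hx
    simp only [mem_filter, mem_univ, true_and]
    rwa [div_div_cancel₀ hy]
  · intro x hx; exact div_div_cancel₀ hy
  · intro x hx; exact div_div_cancel₀ hy

/-- The number of coincidences on the column `x`. -/
def rr (B C : Finset F) (x : F) : ℕ := (univ.filter (fun y => y / x ∈ B ∧ y ∈ C)).card

lemma sum_rr (B C : Finset F) (hC0 : (0 : F) ∉ C) : ∑ x, rr B C x = B.card * C.card := by
  unfold rr
  simp only [Finset.card_filter]
  rw [Finset.sum_comm]
  have : ∀ y : F, ∑ x : F, (if y / x ∈ B ∧ y ∈ C then 1 else 0) = if y ∈ C then B.card else 0 := by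
    intro y
    by_cases hy : y ∈ C
    · have hy0 : y ≠ 0 := by rintro rfl; exact hC0 hy
      rw [if_pos hy, ← card_div_mem' B hy0, Finset.card_filter]
      simp [hy]
    · simp [hy]
  rw [Finset.sum_congr rfl fun y _ => this y]
  simp [mul_comm]

lemma col_w (B C : Finset F) {x : F} (hx : x ≠ 0) :
    col (w B C) x + 2 * rr B C x = B.card + C.card := by
  unfold col w rr
  rw [card_ind2 (fun y => y / x ∈ B) (fun y => y ∈ C), card_div_mem B hx]
  simp

lemma col_w_zero (B C : Finset F) (hB0 : (0 : F) ∉ B) : col (w B C) 0 = C.card := by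
  have h := card_ind2 (fun y : F => y / 0 ∈ B) (fun y => y ∈ C)
  rw [card_div_mem_zero B hB0] at h
  have h2 : (univ.filter (fun y : F => y / 0 ∈ B ∧ y ∈ C)).card = 0 := by simp [hB0]
  rw [h2] at h
  unfold col w
  simpa using h

lemma sum_col_w (B C : Finset F) (hB0 : (0 : F) ∉ B) (hC0 : (0 : F) ∉ C) :
    ∑ x, (col (w B C) x : ℤ) = (Fintype.card F - 1 : ℤ) * B.card + Fintype.card F * C.card
      - 2 * B.card * C.card := by
  have h1 : ∀ x, (col (w B C) x : ℤ) + 2 * rr B C x = (if x = 0 then (0 : ℤ) else B.card) + C.card := by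
    intro x
    by_cases hx : x = 0
    · subst hx
      have : rr B C 0 = 0 := by unfold rr; simp [hB0]
      rw [col_w_zero B C hB0, this]; simp
    · rw [if_neg hx]; exact_mod_cast col_w B C hx
  have h2 : ∑ x : F, ((col (w B C) x : ℤ) + 2 * rr B C x)
      = ∑ x : F, ((if x = 0 then (0 : ℤ) else B.card) + C.card) := Finset.sum_congr rfl fun x _ => h1 x
  rw [Finset.sum_add_distrib, Finset.sum_add_distrib, ← Finset.mul_sum] at h2
  have h3 : ∑ x : F, (rr B C x : ℤ) = B.card * C.card := by exact_mod_cast sum_rr B C hC0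
  have h4 : ∑ x : F, (if x = 0 then (0 : ℤ) else B.card) = (Fintype.card F - 1 : ℤ) * B.card := by
    have : ∀ x : F, (if x = 0 then (0 : ℤ) else B.card) = B.card - if x = 0 then (B.card : ℤ) else 0 := by
      intro x; split_ifs <;> simp
    rw [Finset.sum_congr rfl fun x _ => this x, Finset.sum_sub_distrib]
    simp
    ring
  rw [h3, h4] at h2
  simp only [Finset.sum_const, Finset.card_univ, nsmul_eq_mul] at h2
  linarith


end Part3

section Part4


variable {F : Type} [Field F] [Fintype F] [DecidableEq F]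

lemma card_comp_mem (B : Finset F) (φ : F → F) (hφ : Function.Bijective φ) :
    (univ.filter (fun x => φ x ∈ B)).card = B.card := by
  apply Finset.card_bij (fun x _ => φ x)
  · intro x hx; simpa using hx
  · intro x _ y _ h; exact hφ.1 h
  · intro y hy
    obtain ⟨x, hx⟩ := hφ.2 y
    exact ⟨x, by simpa [hx] using hy, hx⟩

lemma two_eq_zero (h2 : Even (Fintype.card F)) : (2 : F) = 0 := by
  have h1 : ringChar F = 2 := by
    rw [FiniteField.even_card_iff_char_two]; exact Nat.even_iff.mp h2
  have : CharP F 2 := by rw [← h1]; infer_instance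
  exact CharTwo.two_eq_zero

lemma sq_bij (h2 : (2 : F) = 0) (lam : F) (hl : lam ≠ 0) :
    Function.Bijective (fun x : F => lam * x ^ 2) := by
  rw [← Finite.injective_iff_bijective]
  intro x y hxy
  simp only at hxy
  have h3 : x ^ 2 = y ^ 2 := mul_left_cancel₀ hl hxy
  have h4 : (x - y) ^ 2 = 0 := by linear_combination h3 + (y ^ 2 - x * y) * h2
  have h5 : x - y = 0 := by simpa using h4
  exact sub_eq_zero.mp h5

/-- The indicator used in even characteristic: add the line `y = 0` and the parabola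
`y = lam * x ^ 2`. -/
noncomputable def w4 (B C : Finset F) (lam : F) (x y : F) : ZMod 2 :=
  w B C x y + (ind (y = 0) + ind (y = lam * x ^ 2))

lemma sum_ind_eq (φ : F → F) (hφ : Function.Bijective φ) (c : F) :
    ∑ x, ind (φ x = c) = 1 := by
  have h := card_comp_mem {c} φ hφ
  simp only [mem_singleton] at h
  rw [sum_ind, h]; simp

lemma extra_line (h2 : (2 : F) = 0) (hq : Even (Fintype.card F)) (lam : F) (hl : lam ≠ 0) (s t : F) :
    ∑ x, (ind (s * x + t = 0) + ind (s * x + t = lam * x ^ 2)) = 1 := by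
  rw [Finset.sum_add_distrib]
  by_cases hs : s = 0
  · subst hs
    have h1 : ∑ x : F, ind (0 * x + t = 0) = 0 := by
      simp only [zero_mul, zero_add]
      rw [Finset.sum_const, Finset.card_univ, nsmul_eq_mul]
      obtain ⟨r, hr⟩ := hq
      rw [hr]; push_cast
      rw [add_self2]; simp
    have h3 : ∑ x : F, ind (0 * x + t = lam * x ^ 2) = 1 := by
      rw [← sum_ind_eq _ (sq_bij h2 lam hl) t]
      apply Finset.sum_congr rfl
      intro x _
      congr 1
      simp only [zero_mul, zero_add, eq_iff_iff]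
      exact ⟨fun h => h.symm, fun h => h.symm⟩
    rw [h1, h3, zero_add]
  · have hb : Function.Bijective (fun x : F => s * x + t) := by
      rw [← Finite.injective_iff_bijective]
      intro x y hxy
      simpa [hs] using hxy
    have h1 : ∑ x : F, ind (s * x + t = 0) = 1 := sum_ind_eq _ hb 0
    have h3 : ∑ x : F, ind (s * x + t = lam * x ^ 2) = 0 := by
      have hsl : s / lam ≠ 0 := div_ne_zero hs hl
      apply Finset.sum_involution (fun x _ => x + s / lam)
      · intro x _
        have : ind (s * (x + s / lam) + t = lam * (x + s / lam) ^ 2) = ind (s * x + t = lam * x ^ 2) := by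
          congr 1
          simp only [eq_iff_iff]
          have key : lam * (x + s / lam) ^ 2 = lam * x ^ 2 + s ^ 2 / lam + 2 * (x * s) := by
            field_simp; ring
          have key2 : s * (x + s / lam) + t = s * x + t + s ^ 2 / lam := by
            field_simp
            ring
          rw [key, key2, h2, zero_mul, add_zero]
          constructor
          · intro h; exact add_right_cancel h
          · intro h; rw [h]
        rw [this]; exact add_self2 _
      · intro x _ _ h
        exact hsl (by simpa using h)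
      · intro x _; exact Finset.mem_univ _
      · intro x _
        have : x + s / lam + s / lam = x + 2 * (s / lam) := by ring
        simp only [this, h2]; ring
    rw [h1, h3, add_zero]

lemma col_w4_zero (B C : Finset F) (lam : F) : col (w4 B C lam) 0 = col (w B C) 0 := by
  unfold col w4
  congr 1
  ext y
  simp only [mem_filter, mem_univ, true_and]
  have : lam * (0 : F) ^ 2 = 0 := by ring
  rw [this, add_self2, add_zero]

lemma col_w4 (B C : Finset F) (hB0 : (0 : F) ∉ B) (hC0 : (0 : F) ∉ C) (lam : F) (hl : lam ≠ 0)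
    {x : F} (hx : x ≠ 0) :
    (col (w4 B C lam) x : ℤ) + 2 * (if w B C x (lam * x ^ 2) = 1 then 1 else 0)
      = col (w B C) x + 2 := by
  have hz : lam * x ^ 2 ≠ 0 := mul_ne_zero hl (pow_ne_zero _ hx)
  set z := lam * x ^ 2 with hzdef
  have e1 : ∀ W : F → F → ZMod 2, (col W x : ℤ) = (if W x 0 = 1 then 1 else 0) +
      ((if W x z = 1 then 1 else 0) + ∑ y ∈ (univ.erase (0 : F)).erase z, if W x y = 1 then 1 else 0) := by
    intro W
    unfold col
    rw [Finset.card_filter]
    push_cast
    rw [← Finset.add_sum_erase univ _ (Finset.mem_univ (0 : F)),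
      ← Finset.add_sum_erase (univ.erase (0 : F)) _ (Finset.mem_erase.mpr ⟨hz, Finset.mem_univ z⟩)]
  rw [e1, e1]
  have a0 : w B C x 0 = 0 := by
    unfold w
    rw [zero_div, ind_neg hB0, ind_neg hC0]; rfl
  have a1 : w4 B C lam x 0 = 1 := by
    unfold w4
    rw [a0, ind_pos rfl, ind_neg (fun h => hz h.symm)]; rfl
  have a2 : w4 B C lam x z = w B C x z + 1 := by
    unfold w4
    rw [ind_neg hz, ind_pos rfl, zero_add]
  have a3 : ∑ y ∈ (univ.erase (0 : F)).erase z, (if w4 B C lam x y = 1 then (1 : ℤ) else 0)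
      = ∑ y ∈ (univ.erase (0 : F)).erase z, if w B C x y = 1 then (1 : ℤ) else 0 := by
    apply Finset.sum_congr rfl
    intro y hy
    have h1 : y ≠ z := Finset.ne_of_mem_erase hy
    have h2 : y ≠ 0 := Finset.ne_of_mem_erase (Finset.mem_of_mem_erase hy)
    have : w4 B C lam x y = w B C x y := by
      unfold w4
      rw [ind_neg h2, ind_neg h1]; simp
    rw [this]
  rw [a0, a1, a2, a3]
  rcases z2_cases (w B C x z) with h | h
  · rw [h]; simp
    ring
  · rw [h]
    simp

lemma sum_col_w4 (h2 : (2 : F) = 0) (B C : Finset F) (hB0 : (0 : F) ∉ B) (hC0 : (0 : F) ∉ C) (lam : F) (hl : lam ≠ 0)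
    (hboth : ∀ x : F, ¬ (lam * x ∈ B ∧ lam * x ^ 2 ∈ C)) :
    ∑ x, (col (w4 B C lam) x : ℤ) = (Fintype.card F - 1 : ℤ) * B.card + Fintype.card F * C.card
      - 2 * B.card * C.card + 2 * (Fintype.card F - 1) - 2 * (B.card + C.card) := by
  have hdiv : ∀ x : F, lam * x ^ 2 / x = lam * x := by
    intro x
    by_cases hx : x = 0
    · subst hx; simp
    · field_simp
  have hcount : ∑ x : F, (if w B C x (lam * x ^ 2) = 1 then (1 : ℤ) else 0) = B.card + C.card := by
    have h := card_ind2 (fun x : F => lam * x ^ 2 / x ∈ B) (fun x : F => lam * x ^ 2 ∈ C)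
    have h0 : (univ.filter (fun x : F => lam * x ^ 2 / x ∈ B ∧ lam * x ^ 2 ∈ C)) = ∅ := by
      apply Finset.filter_eq_empty_iff.mpr
      intro x _
      rw [hdiv]
      exact hboth x
    have hP : (univ.filter (fun x : F => lam * x ^ 2 / x ∈ B)).card = B.card := by
      have : (univ.filter (fun x : F => lam * x ^ 2 / x ∈ B)) = univ.filter (fun x : F => lam * x ∈ B) := by
        ext x; simp [hdiv]
      rw [this]
      apply card_comp_mem B (fun x => lam * x)
      rw [← Finite.injective_iff_bijective]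
      intro x y hxy
      exact mul_left_cancel₀ hl hxy
    have hQ : (univ.filter (fun x : F => lam * x ^ 2 ∈ C)).card = C.card :=
      card_comp_mem C _ (sq_bij h2 lam hl)
    rw [h0, hP, hQ] at h
    rw [← Nat.cast_add, ← h, Finset.card_empty, mul_zero, add_zero, Finset.card_filter]
    push_cast
    rfl
  have h1 : ∀ x : F, (col (w4 B C lam) x : ℤ) = col (w B C) x + (2 - if x = 0 then 2 else 0)
      - 2 * (if w B C x (lam * x ^ 2) = 1 then 1 else 0) := by
    intro x
    by_cases hx : x = 0
    · subst hx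
      rw [col_w4_zero]
      have : w B C (0 : F) (lam * 0 ^ 2) = 0 := by
        unfold w
        have e : lam * (0 : F) ^ 2 = 0 := by ring
        rw [e, zero_div, ind_neg hB0, ind_neg hC0]; rfl
      rw [this]; simp
    · have := col_w4 B C hB0 hC0 lam hl hx
      rw [if_neg hx]
      linarith
  rw [Finset.sum_congr rfl fun x _ => h1 x, Finset.sum_sub_distrib, Finset.sum_add_distrib,
    Finset.sum_sub_distrib, ← Finset.mul_sum, hcount, sum_col_w B C hB0 hC0]
  simp
  ring


end Part4

section Part5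


/-- Every number up to `X (X + 1) / 2` is a sum of distinct elements of `{1, …, X}`. -/
lemma subset_sum (X : ℕ) : ∀ τ : ℕ, 2 * τ ≤ X * (X + 1) →
    ∃ D : Finset ℕ, (∀ d ∈ D, 1 ≤ d ∧ d ≤ X) ∧ ∑ d ∈ D, d = τ := by
  induction X with
  | zero =>
    intro τ h
    refine ⟨∅, by simp, ?_⟩
    simp at h
    simp [h]
  | succ X ih =>
    intro τ h
    by_cases hτ : X + 1 ≤ τ
    · obtain ⟨D, hD, hs⟩ := ih (τ - (X + 1)) (by
        have : (X + 1) * (X + 1 + 1) = X * (X + 1) + 2 * (X + 1) := by ring
        omega)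
      refine ⟨insert (X + 1) D, ?_, ?_⟩
      · intro d hd
        rw [Finset.mem_insert] at hd
        rcases hd with rfl | hd
        · omega
        · have := hD d hd; omega
      · rw [Finset.sum_insert, hs]
        · omega
        · intro hmem
          have := hD _ hmem; omega
    · by_cases h0 : τ = 0
      · exact ⟨∅, by simp, by simp [h0]⟩
      · refine ⟨{τ}, ?_, by simp⟩
        intro d hd
        rw [Finset.mem_singleton] at hd
        omega

variable {F : Type} [Field F] [Fintype F] [DecidableEq F]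

/-- The first `b` powers of `g`. -/
def P (g : F) (b : ℕ) : Finset F := (Finset.range b).image (fun i => g ^ i)

/-- `g` has distinct powers `g ^ i`, `i < N`. -/
def Inj (g : F) (N : ℕ) : Prop := g ≠ 0 ∧ ∀ i j : ℕ, i < N → j < N → g ^ i = g ^ j → i = j

lemma exists_gen : ∃ g : F, Inj g (Fintype.card F - 1) := by
  obtain ⟨g, hg⟩ := IsCyclic.exists_generator (α := Fˣ)
  have ho : orderOf g = Fintype.card F - 1 := by
    rw [orderOf_eq_card_of_forall_mem_zpowers hg, Nat.card_eq_fintype_card, Fintype.card_units]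
  refine ⟨(g : F), g.ne_zero, ?_⟩
  intro i j hi hj h
  have h2 : g ^ i = g ^ j := by
    ext; simpa using h
  exact pow_injOn_Iio_orderOf (by simpa [ho] using hi) (by simpa [ho] using hj) h2

lemma zero_notMem_P {g : F} {N : ℕ} (hg : Inj g N) (b : ℕ) : (0 : F) ∉ P g b := by
  unfold P
  rw [Finset.mem_image]
  rintro ⟨i, _, hi⟩
  exact pow_ne_zero i hg.1 hi

lemma card_P {g : F} {N : ℕ} (hg : Inj g N) {b : ℕ} (hb : b ≤ N) : (P g b).card = b := by
  unfold P
  rw [Finset.card_image_of_injOn, Finset.card_range]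
  intro i hi j hj h
  simp only [coe_range, Set.mem_Iio] at hi hj
  exact hg.2 i j (by omega) (by omega) h

lemma mem_P {g : F} {N : ℕ} (hg : Inj g N) {b n : ℕ} (hn : n < N) (hb : b ≤ N) :
    g ^ n ∈ P g b ↔ n < b := by
  unfold P
  rw [Finset.mem_image]
  constructor
  · rintro ⟨i, hi, h⟩
    rw [Finset.mem_range] at hi
    have := hg.2 i n (by omega) hn h
    omega
  · intro h
    exact ⟨n, Finset.mem_range.mpr h, rfl⟩

lemma rr_P {g : F} {N : ℕ} (hg : Inj g N) {b d : ℕ} (hN : 2 * b ≤ N) (hd1 : 1 ≤ d) (hd : d ≤ b) :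
    rr (P g b) (P g b) (g ^ (b - d)) = d := by
  unfold rr
  have : (univ.filter (fun y => y / g ^ (b - d) ∈ P g b ∧ y ∈ P g b))
      = (Finset.Ico (b - d) b).image (fun i => g ^ i) := by
    ext y
    simp only [mem_filter, mem_univ, true_and, mem_image, mem_Ico]
    constructor
    · rintro ⟨h1, h2⟩
      unfold P at h1 h2
      rw [Finset.mem_image] at h1 h2
      obtain ⟨j, hj, hj2⟩ := h1
      obtain ⟨l, hl, hl2⟩ := h2
      rw [Finset.mem_range] at hj hl
      have h3 : g ^ (j + (b - d)) = y := by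
        rw [pow_add, hj2, div_mul_cancel₀ _ (pow_ne_zero _ hg.1)]
      have h4 := hg.2 (j + (b - d)) l (by omega) (by omega) (by rw [h3, hl2])
      exact ⟨l, by omega, hl2⟩
    · rintro ⟨l, hl, rfl⟩
      constructor
      · have : g ^ l / g ^ (b - d) = g ^ (l - (b - d)) := by
          rw [div_eq_iff (pow_ne_zero _ hg.1), ← pow_add]
          congr 1; omega
        rw [this, mem_P hg (by omega) (by omega)]
        omega
      · rw [mem_P hg (by omega) (by omega)]; omega
  rw [this, Finset.card_image_of_injOn]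
  · rw [Nat.card_Ico]; omega
  · intro i hi j hj h
    simp only [coe_Ico, Set.mem_Ico] at hi hj
    exact hg.2 i j (by omega) (by omega) h

/-- the columns on which coincidences may occur -/
def Supp (g : F) (b : ℕ) : Finset F := P g b ∪ (P g b).image (fun x => x⁻¹)

lemma card_Supp (g : F) (b : ℕ) : (Supp g b).card ≤ 2 * b := by
  unfold Supp
  have h1 : (P g b).card ≤ b := by
    unfold P
    calc ((Finset.range b).image (fun i => g ^ i)).card ≤ (Finset.range b).card := Finset.card_image_le
      _ = b := Finset.card_range b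
  have h2 : ((P g b).image (fun x : F => x⁻¹)).card ≤ (P g b).card := Finset.card_image_le
  have h3 := Finset.card_union_le (P g b) ((P g b).image (fun x : F => x⁻¹))
  omega

lemma rr_eq_zero {g : F} {N : ℕ} (hg : Inj g N) {b : ℕ} {x : F} (hx : x ∉ Supp g b) :
    rr (P g b) (P g b) x = 0 := by
  unfold rr
  rw [Finset.card_eq_zero]
  apply Finset.filter_eq_empty_iff.mpr
  rintro y _ ⟨h1, h2⟩
  apply hx
  unfold Supp
  rw [Finset.mem_union]
  unfold P at h1 h2
  rw [Finset.mem_image] at h1 h2
  obtain ⟨j, hj, hj2⟩ := h1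
  obtain ⟨l, hl, hl2⟩ := h2
  rw [Finset.mem_range] at hj hl
  have hy0 : y ≠ 0 := by rw [← hl2]; exact pow_ne_zero _ hg.1
  have hx0 : x ≠ 0 := by
    rintro rfl
    rw [div_zero] at hj2
    exact pow_ne_zero _ hg.1 hj2
  have h3 : g ^ j * x = g ^ l := by
    rw [hj2, hl2]; field_simp
  rcases Nat.le_total j l with h | h
  · left
    unfold P
    rw [Finset.mem_image]
    refine ⟨l - j, Finset.mem_range.mpr (by omega), ?_⟩
    apply mul_left_cancel₀ (pow_ne_zero j hg.1)
    rw [h3, ← pow_add]; congr 1; omega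
  · right
    rw [Finset.mem_image]
    refine ⟨g ^ (j - l), ?_, ?_⟩
    · unfold P
      rw [Finset.mem_image]
      exact ⟨j - l, Finset.mem_range.mpr (by omega), rfl⟩
    · apply inv_eq_of_mul_eq_one_left
      apply mul_left_cancel₀ (pow_ne_zero l hg.1)
      have h5 : g ^ j = g ^ l * g ^ (j - l) := by rw [← pow_add]; congr 1; omega
      rw [mul_one]
      calc g ^ l * (x * g ^ (j - l)) = (g ^ l * g ^ (j - l)) * x := by ring
        _ = g ^ j * x := by rw [h5]
        _ = g ^ l := h3

/-- Selection of the columns to be complemented. -/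
lemma select {g : F} {N : ℕ} (hg : Inj g N) {b : ℕ} (hN : 2 * b ≤ N) (D : Finset ℕ)
    (hD : ∀ d ∈ D, 1 ≤ d ∧ d ≤ b) (Z : Finset F) (hZ : Supp g b ⊆ Z) (hZ0 : (0 : F) ∈ Z) (a : ℕ)
    (ha1 : D.card ≤ a) (ha2 : a - D.card + Z.card ≤ Fintype.card F) :
    ∃ A : Finset F, A.card = a ∧ (0 : F) ∉ A ∧ (∀ x ∈ A, x ∉ Z ∨ ∃ d ∈ D, x = g ^ (b - d)) ∧
      ∑ x ∈ A, rr (P g b) (P g b) x = ∑ d ∈ D, d ∧
      (A.filter (fun x => rr (P g b) (P g b) x ≠ 0)).card ≤ D.card := by
  obtain ⟨A2, hA2, hA2c⟩ := Finset.exists_subset_card_eq (s := Zᶜ) (n := a - D.card)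
    (by rw [Finset.card_compl]; omega)
  set A1 := D.image (fun d => g ^ (b - d)) with hA1
  have injD : Set.InjOn (fun d => g ^ (b - d)) (D : Set ℕ) := by
    intro i hi j hj h
    have h1 := hD i hi
    have h2 := hD j hj
    have := hg.2 (b - i) (b - j) (by omega) (by omega) h
    omega
  have cA1 : A1.card = D.card := Finset.card_image_of_injOn injD
  have hA1S : A1 ⊆ Supp g b := by
    intro x hx
    rw [hA1, Finset.mem_image] at hx
    obtain ⟨d, hd, rfl⟩ := hx
    have h1 := hD d hd
    unfold Supp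
    rw [Finset.mem_union]
    left
    unfold P
    rw [Finset.mem_image]
    exact ⟨b - d, Finset.mem_range.mpr (by omega), rfl⟩
  have hdisj : Disjoint A1 A2 := by
    rw [Finset.disjoint_left]
    intro x h1 h2
    have := hA2 h2
    rw [Finset.mem_compl] at this
    exact this (hZ (hA1S h1))
  have hzero2 : ∀ x ∈ A2, rr (P g b) (P g b) x = 0 := by
    intro x hx
    apply rr_eq_zero hg
    intro h
    have := hA2 hx
    rw [Finset.mem_compl] at this
    exact this (hZ h)
  refine ⟨A1 ∪ A2, ?_, ?_, ?_, ?_, ?_⟩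
  · rw [Finset.card_union_of_disjoint hdisj, cA1, hA2c]; omega
  · rw [Finset.mem_union]
    rintro (h | h)
    · rw [hA1, Finset.mem_image] at h
      obtain ⟨d, _, hd⟩ := h
      exact pow_ne_zero _ hg.1 hd
    · have := hA2 h
      rw [Finset.mem_compl] at this
      exact this hZ0
  · intro x hx
    rw [Finset.mem_union] at hx
    rcases hx with h | h
    · right
      rw [hA1, Finset.mem_image] at h
      obtain ⟨d, hd, rfl⟩ := h
      exact ⟨d, hd, rfl⟩
    · left
      have := hA2 h
      rwa [Finset.mem_compl] at this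
  · rw [Finset.sum_union hdisj, Finset.sum_eq_zero hzero2, add_zero, hA1, Finset.sum_image injD]
    apply Finset.sum_congr rfl
    intro d hd
    have h1 := hD d hd
    exact rr_P hg hN h1.1 h1.2
  · rw [← cA1]
    apply Finset.card_le_card
    intro x hx
    rw [Finset.mem_filter, Finset.mem_union] at hx
    rcases hx.1 with h | h
    · exact h
    · exact absurd (hzero2 x h) hx.2


end Part5

section Part6


variable {F : Type} [Field F] [Fintype F] [DecidableEq F]

lemma ne_of_mod2 {N k a : ℕ} (h : (N : ZMod 2) = (a : ZMod 2)) (hp : ¬ (a ≡ k [MOD 2])) : N ≠ k := by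
  rintro rfl
  exact hp ((ZMod.natCast_eq_natCast_iff _ _ _).mp h).symm

lemma mem_setOf' (A : Finset F) (W : F → F → ZMod 2) (x y : F) :
    (x, y) ∈ setOf' A W ↔ ind (x ∈ A) + W x y = 1 := by
  simp [setOf']

/-- Number of points on a special line, in odd characteristic. -/
lemma special_slope (A B : Finset F) (hA0 : (0 : F) ∉ A) (hB0 : (0 : F) ∉ B)
    {s : F} (hs : s ∈ B) :
    (univ.filter (fun x => (x, s * x + 0) ∈ setOf' A (w B B))).card + 1 + A.card + B.card
      ≤ Fintype.card F + 2 * (A.filter (fun x => rr B B x ≠ 0)).card := by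
  have hs0 : s ≠ 0 := by rintro rfl; exact hB0 hs
  have h1 := card_ind2 (fun x : F => x ∈ A) (fun x : F => s * x ∈ B)
  have h2 : (univ.filter (fun x : F => s * x ∈ B)).card = B.card := by
    apply card_comp_mem B (fun x => s * x)
    rw [← Finite.injective_iff_bijective]
    intro x y hxy
    exact mul_left_cancel₀ hs0 hxy
  have h3 : (univ.filter (fun x : F => x ∈ A)).card = A.card := by simp
  have h4 : (univ.filter (fun x : F => x ∈ A ∧ s * x ∈ B)).card ≤
      (A.filter (fun x => rr B B x ≠ 0)).card := by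
    apply Finset.card_le_card
    intro x hx
    simp only [mem_filter, mem_univ, true_and] at hx ⊢
    refine ⟨hx.1, ?_⟩
    have hx0 : x ≠ 0 := by rintro rfl; exact hA0 hx.1
    unfold rr
    rw [Finset.card_ne_zero]
    refine ⟨s * x, ?_⟩
    simp only [mem_filter, mem_univ, true_and]
    refine ⟨?_, hx.2⟩
    rwa [mul_div_assoc, div_self hx0, mul_one]
  have h5 : (univ.filter (fun x => (x, s * x + 0) ∈ setOf' A (w B B))).card + 1
      + (univ.filter (fun x : F => ind (x ∈ A) + ind (s * x ∈ B) = 1)).card ≤ Fintype.card F := by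
    have hd : Disjoint (insert (0 : F) (univ.filter (fun x => (x, s * x + 0) ∈ setOf' A (w B B))))
        (univ.filter (fun x : F => ind (x ∈ A) + ind (s * x ∈ B) = 1)) := by
      rw [Finset.disjoint_left]
      intro x hx hx2
      simp only [mem_filter, mem_univ, true_and] at hx2
      by_cases hx0 : x = 0
      · subst hx0
        rw [ind_neg hA0, mul_zero, ind_neg hB0] at hx2
        exact absurd hx2 (by decide)
      · rw [Finset.mem_insert] at hx
        rcases hx with h | h
        · exact hx0 h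
        · simp only [mem_filter, mem_univ, true_and, add_zero, mem_setOf'] at h
          unfold w at h
          have e : s * x / x = s := by rw [mul_div_assoc, div_self hx0, mul_one]
          rw [e, ind_pos hs] at h
          have : ind (x ∈ A) + (1 + ind (s * x ∈ B)) = (ind (x ∈ A) + ind (s * x ∈ B)) + 1 := by ring
          rw [this, hx2] at h
          exact absurd h (by decide)
    have hn : (0 : F) ∉ (univ.filter (fun x => (x, s * x + 0) ∈ setOf' A (w B B))) := by
      simp only [mem_filter, mem_univ, true_and, add_zero, mul_zero, mem_setOf']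
      unfold w
      rw [div_zero, ind_neg hA0, ind_neg hB0]
      decide
    rw [← Finset.card_insert_of_notMem hn, ← Finset.card_union_of_disjoint hd]
    exact Finset.card_le_univ _
  omega

lemma special_height (A B : Finset F) (hA0 : (0 : F) ∉ A) (hB0 : (0 : F) ∉ B)
    {t : F} (ht : t ∈ B) :
    (univ.filter (fun x => (x, 0 * x + t) ∈ setOf' A (w B B))).card + A.card + B.card
      ≤ Fintype.card F + 2 * (A.filter (fun x => rr B B x ≠ 0)).card := by
  have ht0 : t ≠ 0 := by rintro rfl; exact hB0 ht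
  have h1 := card_ind2 (fun x : F => x ∈ A) (fun x : F => t / x ∈ B)
  have h2 : (univ.filter (fun x : F => t / x ∈ B)).card = B.card := card_div_mem' B ht0
  have h3 : (univ.filter (fun x : F => x ∈ A)).card = A.card := by simp
  have h4 : (univ.filter (fun x : F => x ∈ A ∧ t / x ∈ B)).card ≤
      (A.filter (fun x => rr B B x ≠ 0)).card := by
    apply Finset.card_le_card
    intro x hx
    simp only [mem_filter, mem_univ, true_and] at hx ⊢
    refine ⟨hx.1, ?_⟩
    unfold rr
    rw [Finset.card_ne_zero]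
    refine ⟨t, ?_⟩
    simp only [mem_filter, mem_univ, true_and]
    exact ⟨hx.2, ht⟩
  have h5 : (univ.filter (fun x => (x, 0 * x + t) ∈ setOf' A (w B B))).card
      + (univ.filter (fun x : F => ind (x ∈ A) + ind (t / x ∈ B) = 1)).card ≤ Fintype.card F := by
    have hd : Disjoint (univ.filter (fun x => (x, 0 * x + t) ∈ setOf' A (w B B)))
        (univ.filter (fun x : F => ind (x ∈ A) + ind (t / x ∈ B) = 1)) := by
      rw [Finset.disjoint_left]
      intro x hx hx2
      simp only [mem_filter, mem_univ, true_and] at hx2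
      simp only [mem_filter, mem_univ, true_and, zero_mul, zero_add, mem_setOf'] at hx
      unfold w at hx
      rw [ind_pos ht] at hx
      have : ind (x ∈ A) + (ind (t / x ∈ B) + 1) = (ind (x ∈ A) + ind (t / x ∈ B)) + 1 := by ring
      rw [this, hx2] at hx
      exact absurd hx (by decide)
    rw [← Finset.card_union_of_disjoint hd]
    exact Finset.card_le_univ _
  omega

theorem good1 {g : F} (hg : Inj g (Fintype.card F - 1)) {b : ℕ} (hb : Even b)
    (hN : 2 * b ≤ Fintype.card F - 1) (D : Finset ℕ)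
    (hD : ∀ d ∈ D, 1 ≤ d ∧ d ≤ b) {a e k m : ℕ} (he : e ≤ 1)
    (ha1 : D.card ≤ a) (ha2 : a - D.card + (2 * b + 1) ≤ Fintype.card F)
    (hpar : ¬ (a ≡ k [MOD 2]))
    (hspecial : Even (Fintype.card F) ∨ Fintype.card F + 2 * D.card < a + k + b)
    (hk1 : 2 * b + 1 < k) (hk2 : k + 2 * b < Fintype.card F)
    (hm : (m : ℤ) = a * Fintype.card F + 2 * b * Fintype.card F - 4 * a * b - 2 * b ^ 2
      + 4 * ((∑ d ∈ D, d : ℕ) : ℤ) + e) : Good F k m := by
  set q := Fintype.card F with hq
  set B := P g b with hB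
  have hB0 : (0 : F) ∉ B := zero_notMem_P hg b
  have hBc : B.card = b := card_P hg (by omega)
  have hBe : Even B.card := by rw [hBc]; exact hb
  obtain ⟨A, hAc, hA0, -, hAsum, hAn⟩ := select hg hN D hD (insert 0 (Supp g b))
    (Finset.subset_insert _ _) (Finset.mem_insert_self _ _) a ha1 (by
      have h1 := card_Supp g b
      have h2 := Finset.card_insert_le (0 : F) (Supp g b)
      omega)
  simp only [← hB] at hAsum hAn
  have hcolA : ∀ x ∈ A, (q : ℤ) - 2 * col (w B B) x = (q - 4 * b : ℤ) + 4 * rr B B x := by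
    intro x hx
    have hx0 : x ≠ 0 := by rintro rfl; exact hA0 hx
    have h := col_w B B hx0
    rw [hBc] at h
    have h' : (col (w B B) x : ℤ) + 2 * rr B B x = b + b := by exact_mod_cast h
    linarith
  have hcolle : ∀ x, col (w B B) x ≤ 2 * b := by
    intro x
    by_cases hx0 : x = 0
    · subst hx0
      rw [col_w_zero B B hB0, hBc]; omega
    · have h := col_w B B hx0
      rw [hBc] at h; omega
  refine ⟨setOf' A (w B B), B, e, he, ?_, ?_, ?_, ?_⟩
  · have h1 := card_setOf' A (w B B)
    rw [sum_col_w B B hB0 hB0, Finset.sum_congr rfl hcolA, Finset.sum_add_distrib,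
      ← Finset.mul_sum, Finset.sum_const, hAc, hBc, ← hq] at h1
    have h2 : ∑ x ∈ A, (rr B B x : ℤ) = ((∑ d ∈ D, d : ℕ) : ℤ) := by
      rw [← hAsum]; push_cast; rfl
    rw [h2] at h1
    rw [hBc]
    zify
    rw [h1, hm, nsmul_eq_mul]
    push_cast
    ring
  · intro s t
    have hpr := line_parity A (w B B) s t
    have hw := w_line B B hB0 hBe hBe s t
    have hcast : (((univ.filter (fun x => (x, s * x + t) ∈ setOf' A (w B B))).card
        + (if s ∈ B then 1 else 0) : ℕ) : ZMod 2) = (A.card : ZMod 2)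
        + ((if t = 0 then (Fintype.card F : ZMod 2) * ind (s ∈ B) else 0)
          + (if s = 0 then (Fintype.card F : ZMod 2) * ind (t ∈ B) else 0)) := by
      have hi : ((if s ∈ B then 1 else 0 : ℕ) : ZMod 2) = ind (s ∈ B) := by
        by_cases h : s ∈ B
        · rw [if_pos h, ind_pos h]; simp
        · rw [if_neg h, ind_neg h]; simp
      rw [Nat.cast_add, hi, hpr, ← hw]; ring
    by_cases hqe : Even (Fintype.card F)
    · have hq0 : (Fintype.card F : ZMod 2) = 0 := by
        obtain ⟨r, hr⟩ := hqe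
        rw [hr]; push_cast; exact add_self2 _
      rw [hq0] at hcast
      apply ne_of_mod2 (a := a) _ hpar
      rw [hcast, hAc]; simp
    · have hsp : q + 2 * D.card < a + k + b := by
        rcases hspecial with h | h
        · exact absurd h hqe
        · exact h
      by_cases h1 : t = 0 ∧ s ∈ B
      · obtain ⟨rfl, hs⟩ := h1
        have h2 := special_slope A B hA0 hB0 hs
        rw [if_pos hs]
        rw [hAc, hBc] at h2
        omega
      · by_cases h2 : s = 0 ∧ t ∈ B
        · obtain ⟨rfl, ht⟩ := h2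
          have h3 := special_height A B hA0 hB0 ht
          rw [if_neg hB0]
          rw [hAc, hBc] at h3
          omega
        · apply ne_of_mod2 (a := a) _ hpar
          rw [hcast, hAc]
          have e1 : (if t = 0 then (Fintype.card F : ZMod 2) * ind (s ∈ B) else 0) = 0 := by
            by_cases h : t = 0
            · rw [if_pos h, ind_neg (fun h' => h1 ⟨h, h'⟩), mul_zero]
            · rw [if_neg h]
          have e2 : (if s = 0 then (Fintype.card F : ZMod 2) * ind (t ∈ B) else 0) = 0 := by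
            by_cases h : s = 0
            · rw [if_pos h, ind_neg (fun h' => h2 ⟨h, h'⟩), mul_zero]
            · rw [if_neg h]
          rw [e1, e2, add_zero, add_zero]
  · intro x
    have h := hcolle x
    by_cases hx : x ∈ A
    · rw [col_mem A _ hx]; omega
    · rw [col_notMem A _ hx]; omega
  · rw [hBc]; omega

theorem good4 (hqe : Even (Fintype.card F)) {g : F} (hg : Inj g (Fintype.card F - 1)) {b : ℕ}
    (hb : Even b) (hb0 : 0 < b)
    (hN : 4 * b ≤ Fintype.card F - 1) (D : Finset ℕ)
    (hD : ∀ d ∈ D, 1 ≤ d ∧ d ≤ b) {a e k m : ℕ} (he : e ≤ 1)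
    (ha1 : D.card ≤ a) (ha2 : a - D.card + (4 * b + 1) ≤ Fintype.card F)
    (hpar : ¬ (a + 1 ≡ k [MOD 2]))
    (hk1 : 2 * b + 3 < k) (hk2 : k + 2 * b + 2 < Fintype.card F)
    (hm : (m : ℤ) = a * Fintype.card F + 2 * b * Fintype.card F - 4 * a * b - 2 * b ^ 2
      + 4 * ((∑ d ∈ D, d : ℕ) : ℤ) + e + (2 * Fintype.card F - 4 * b - 2 - 4 * a)) : Good F k m := by
  have h2 : (2 : F) = 0 := two_eq_zero hqe
  set q := Fintype.card F with hq
  set B := P g b with hB
  set lam := g ^ (2 * b) with hlam
  have hl : lam ≠ 0 := pow_ne_zero _ hg.1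
  have hB0 : (0 : F) ∉ B := zero_notMem_P hg b
  have hBc : B.card = b := card_P hg (by omega)
  have hBe : Even B.card := by rw [hBc]; exact hb
  set E := (univ.filter (fun x : F => lam * x ∈ B)) ∪ (univ.filter (fun x : F => lam * x ^ 2 ∈ B)) with hE
  have hEc : E.card ≤ 2 * b := by
    have e1 : (univ.filter (fun x : F => lam * x ∈ B)).card = B.card := by
      apply card_comp_mem B (fun x => lam * x)
      rw [← Finite.injective_iff_bijective]
      intro x y hxy
      exact mul_left_cancel₀ hl hxy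
    have e2 : (univ.filter (fun x : F => lam * x ^ 2 ∈ B)).card = B.card :=
      card_comp_mem B _ (sq_bij h2 lam hl)
    have := Finset.card_union_le (univ.filter (fun x : F => lam * x ∈ B)) (univ.filter (fun x : F => lam * x ^ 2 ∈ B))
    rw [← hE] at this
    omega
  obtain ⟨A, hAc, hA0, hAm, hAsum, hAn⟩ := select hg (by omega : 2 * b ≤ Fintype.card F - 1) D hD
    (insert 0 (Supp g b) ∪ E)
    ((Finset.subset_insert _ _).trans Finset.subset_union_left)
    (Finset.mem_union_left _ (Finset.mem_insert_self _ _)) a ha1 (by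
      have h1 := card_Supp g b
      have h2 := Finset.card_insert_le (0 : F) (Supp g b)
      have h3 := Finset.card_union_le (insert 0 (Supp g b)) E
      omega)
  simp only [← hB] at hAsum hAn
  have hdiv : ∀ x : F, lam * x ^ 2 / x = lam * x := by
    intro x
    by_cases hx : x = 0
    · subst hx; simp
    · field_simp
  have hwA : ∀ x ∈ A, w B B x (lam * x ^ 2) = 0 := by
    intro x hx
    have : lam * x ∉ B ∧ lam * x ^ 2 ∉ B := by
      rcases hAm x hx with h | ⟨d, hd, rfl⟩
      · rw [Finset.mem_union] at h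
        have h3 : x ∉ E := fun h' => h (Or.inr h')
        rw [hE, Finset.mem_union] at h3
        simp only [mem_filter, mem_univ, true_and, not_or] at h3
        exact h3
      · have hd' := hD d hd
        constructor
        · rw [hlam, ← pow_add, hB, mem_P hg (by omega) (by omega)]; omega
        · rw [hlam, ← pow_mul, ← pow_add, hB, mem_P hg (by omega) (by omega)]; omega
    unfold w
    rw [hdiv, ind_neg this.1, ind_neg this.2, add_zero]
  have hboth : ∀ x : F, ¬ (lam * x ∈ B ∧ lam * x ^ 2 ∈ B) := by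
    rintro x ⟨h1, h3⟩
    rw [hB] at h1 h3
    unfold P at h1 h3
    rw [Finset.mem_image] at h1 h3
    obtain ⟨i, hi, hi2⟩ := h1
    obtain ⟨j, hj, hj2⟩ := h3
    rw [Finset.mem_range] at hi hj
    have h4 : g ^ (2 * i) = g ^ (2 * b + j) := by
      rw [pow_add, hj2, mul_comm 2 i, pow_mul, hi2, ← hlam]; ring
    have h5 := hg.2 (2 * i) (2 * b + j) (by omega) (by omega) h4
    omega
  have hcolA : ∀ x ∈ A, (q : ℤ) - 2 * col (w4 B B lam) x = (q - 4 * b - 4 : ℤ) + 4 * rr B B x := by
    intro x hx
    have hx0 : x ≠ 0 := by rintro rfl; exact hA0 hx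
    have h := col_w B B hx0
    rw [hBc] at h
    have h' : (col (w B B) x : ℤ) + 2 * rr B B x = b + b := by exact_mod_cast h
    have h'' := col_w4 B B hB0 hB0 lam hl hx0
    rw [hwA x hx] at h''
    simp only [zero_ne_one, if_false, mul_zero, add_zero] at h''
    linarith
  have hcolle : ∀ x, col (w4 B B lam) x ≤ 2 * b + 2 := by
    intro x
    by_cases hx0 : x = 0
    · subst hx0
      rw [col_w4_zero, col_w_zero B B hB0, hBc]; omega
    · have h := col_w B B hx0
      rw [hBc] at h
      have h'' := col_w4 B B hB0 hB0 lam hl hx0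
      split_ifs at h'' <;> omega
  refine ⟨setOf' A (w4 B B lam), B, e, he, ?_, ?_, ?_, ?_⟩
  · have h1 := card_setOf' A (w4 B B lam)
    rw [sum_col_w4 h2 B B hB0 hB0 lam hl hboth, Finset.sum_congr rfl hcolA, Finset.sum_add_distrib,
      ← Finset.mul_sum, Finset.sum_const, hAc, hBc, ← hq] at h1
    have h3 : ∑ x ∈ A, (rr B B x : ℤ) = ((∑ d ∈ D, d : ℕ) : ℤ) := by
      rw [← hAsum]; push_cast; rfl
    rw [h3] at h1
    rw [hBc]
    zify
    rw [h1, hm, nsmul_eq_mul]
    push_cast
    ring
  · intro s t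
    have hpr := line_parity A (w4 B B lam) s t
    have hw := w_line B B hB0 hBe hBe s t
    have hx := extra_line h2 hqe lam hl s t
    have hq0 : (Fintype.card F : ZMod 2) = 0 := by
      obtain ⟨r, hr⟩ := hqe
      rw [← hq, hr]; push_cast; exact add_self2 _
    have hcast : (((univ.filter (fun x => (x, s * x + t) ∈ setOf' A (w4 B B lam))).card
        + (if s ∈ B then 1 else 0) : ℕ) : ZMod 2) = ((A.card + 1 : ℕ) : ZMod 2) := by
      have hi : ((if s ∈ B then 1 else 0 : ℕ) : ZMod 2) = ind (s ∈ B) := by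
        by_cases h : s ∈ B
        · rw [if_pos h, ind_pos h]; simp
        · rw [if_neg h, ind_neg h]; simp
      rw [Nat.cast_add, hi, hpr]
      unfold w4
      rw [Finset.sum_add_distrib, hx]
      rw [hq0] at hw
      simp only [zero_mul, ite_self, add_zero] at hw
      push_cast
      linear_combination hw
    apply ne_of_mod2 (a := a + 1) _ hpar
    rw [hcast, hAc]
  · intro x
    have h := hcolle x
    by_cases hx : x ∈ A
    · rw [col_mem A _ hx]; omega
    · rw [col_notMem A _ hx]; omega
  · rw [hBc]; omega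


end Part6

section Part7


lemma bound1 (q b k m a e : ℤ) (he0 : 0 ≤ e) (he : e ≤ 1) (hq : 0 < q)
    (H1 : q ^ 2 + q + 1 ≤ 2 * m) (H2 : m < (k + 2) * q) (H3 : k + 6 * b + 5 ≤ q)
    (hQ : 0 < q - 4 * b) (hle : a * (q - 4 * b) ≤ m - e - 2 * b * q + 2 * b ^ 2)
    (hlt : m - e - 2 * b * q + 2 * b ^ 2 < (a + 4) * (q - 4 * b)) :
    a ≤ q - 4 * b - 1 ∧ q < 2 * (a + 4) := by
  constructor
  · by_contra hcon
    have h1 : 0 ≤ (a - (q - 4 * b)) * (q - 4 * b) := mul_nonneg (by omega) hQ.le
    have h2 : 0 ≤ (q - 6 * b - 5 - k) * q := mul_nonneg (by omega) hq.le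
    nlinarith [sq_nonneg b]
  · by_contra hcon
    have h1 : 0 ≤ (q - 2 * (a + 4)) * (q - 4 * b) := mul_nonneg (by omega) hQ.le
    nlinarith [sq_nonneg b]

lemma bound4 (q b k m a e : ℤ) (he0 : 0 ≤ e) (he : e ≤ 1) (hq : 0 < q) (hb : 0 < b)
    (H1 : q ^ 2 + q + 1 ≤ 2 * m) (H2 : m < (k + 2) * q) (H3 : k + 6 * b + 5 ≤ q)
    (hQ : 0 < q - 4 * b - 4)
    (hle : a * (q - 4 * b - 4) ≤ m - e - 2 * b * q + 2 * b ^ 2 - 2 * q + 4 * b + 2)
    (hlt : m - e - 2 * b * q + 2 * b ^ 2 - 2 * q + 4 * b + 2 < (a + 4) * (q - 4 * b - 4)) :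
    a ≤ q - 4 * b - 1 ∧ q < 2 * (a + 4) := by
  constructor
  · by_contra hcon
    have h1 : 0 ≤ (a - (q - 4 * b)) * (q - 4 * b - 4) := mul_nonneg (by omega) hQ.le
    have h2 : 0 ≤ (q - 6 * b - 5 - k) * q := mul_nonneg (by omega) hq.le
    nlinarith [sq_nonneg b, mul_pos hb hb]
  · by_contra hcon
    have h1 : 0 ≤ (q - 2 * (a + 4)) * (q - 4 * b - 4) := mul_nonneg (by omega) hQ.le
    nlinarith [sq_nonneg b, mul_pos hb hb]

lemma find_a (Q m1 r : ℤ) (hQ : 0 < Q) (hr0 : 0 ≤ r) (h : r * Q ≤ m1) :
    ∃ a : ℤ, 0 ≤ a ∧ a % 4 = r % 4 ∧ a * Q ≤ m1 ∧ m1 < (a + 4) * Q := by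
  set d := (m1 - r * Q) / (4 * Q) with hd
  have h4Q : 0 < 4 * Q := by omega
  have hd0 : 0 ≤ d := Int.ediv_nonneg (by omega) h4Q.le
  have h1 := Int.emod_add_mul_ediv (m1 - r * Q) (4 * Q)
  have h2 := Int.emod_nonneg (m1 - r * Q) h4Q.ne'
  have h3 := Int.emod_lt_of_pos (m1 - r * Q) h4Q
  rw [← hd] at h1
  refine ⟨r + 4 * d, by omega, by omega, ?_, ?_⟩
  · nlinarith
  · nlinarith

/-- common part of the numerical lemmas -/
lemma num_fin1 (q b k m m1 e r : ℤ) (he0 : 0 ≤ e) (he1 : e ≤ 1) (hb : 0 < b) (hq : 12 * b + 7 ≤ q)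
    (H1 : q ^ 2 + q + 1 ≤ 2 * m) (H2 : m < (k + 2) * q) (H3 : k + 6 * b + 5 ≤ q)
    (hm1 : m1 = m - e - 2 * b * q + 2 * b ^ 2)
    (hr0 : 0 ≤ r) (hr3 : r ≤ 3) (hpar : (r - k) % 2 = 1)
    (hdvd : ∀ a : ℤ, a % 4 = r → (4 : ℤ) ∣ m1 - a * (q - 4 * b)) :
    ∃ a τ e : ℤ, 0 ≤ a ∧ 0 ≤ τ ∧ 0 ≤ e ∧ e ≤ 1 ∧ a ≤ q - 4 * b - 1 ∧ q < 2 * (a + 4) ∧ τ < q ∧
      (a - k) % 2 = 1 ∧ m = a * (q - 4 * b) + 2 * b * q - 2 * b ^ 2 + 4 * τ + e := by
  have hqz : 0 < q := by omega
  have hQ0 : 0 < q - 4 * b := by omega
  have hlow : r * (q - 4 * b) ≤ m1 := by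
    have h5 : r * (q - 4 * b) ≤ 3 * (q - 4 * b) := mul_le_mul_of_nonneg_right hr3 hQ0.le
    have h6 : (0 : ℤ) ≤ (q - 12 * b - 7) * q := mul_nonneg (by omega) hqz.le
    have h7 := sq_nonneg b
    nlinarith
  obtain ⟨a, ha0, har, hle, hlt⟩ := find_a (q - 4 * b) m1 r hQ0 hr0 hlow
  rw [hm1] at hle hlt
  obtain ⟨hb1, hb2⟩ := bound1 q b k m a e he0 he1 hqz H1 H2 H3 hQ0 hle hlt
  obtain ⟨τ, hτ⟩ := hdvd a (by omega)
  rw [hm1] at hτ
  have h7 : (a + 4) * (q - 4 * b) = a * (q - 4 * b) + 4 * (q - 4 * b) := by ring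
  refine ⟨a, τ, e, ha0, by omega, he0, he1, hb1, hb2, by omega, by omega, by linarith⟩

lemma num_fin4 (q b k m m1 e r : ℤ) (he0 : 0 ≤ e) (he1 : e ≤ 1) (hb : 0 < b) (hq : 12 * b + 7 ≤ q)
    (H1 : q ^ 2 + q + 1 ≤ 2 * m) (H2 : m < (k + 2) * q) (H3 : k + 6 * b + 5 ≤ q)
    (hm1 : m1 = m - e - 2 * b * q + 2 * b ^ 2 - 2 * q + 4 * b + 2)
    (hr0 : 0 ≤ r) (hr3 : r ≤ 3) (hpar : (r - k) % 2 = 0)
    (hdvd : ∀ a : ℤ, a % 4 = r → (4 : ℤ) ∣ m1 - a * (q - 4 * b - 4)) :
    ∃ a τ e : ℤ, 0 ≤ a ∧ 0 ≤ τ ∧ 0 ≤ e ∧ e ≤ 1 ∧ a ≤ q - 4 * b - 1 ∧ q < 2 * (a + 4) ∧ τ < q ∧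
      (a - k) % 2 = 0 ∧
      m = a * (q - 4 * b - 4) + 2 * b * q - 2 * b ^ 2 + 2 * q - 4 * b - 2 + 4 * τ + e := by
  have hqz : 0 < q := by omega
  have hQ0 : 0 < q - 4 * b - 4 := by omega
  have hlow : r * (q - 4 * b - 4) ≤ m1 := by
    have h5 : r * (q - 4 * b - 4) ≤ 3 * (q - 4 * b - 4) := mul_le_mul_of_nonneg_right hr3 hQ0.le
    have h6 : (0 : ℤ) ≤ (q - 12 * b - 7) * q := mul_nonneg (by omega) hqz.le
    have h7 := sq_nonneg b
    nlinarith
  obtain ⟨a, ha0, har, hle, hlt⟩ := find_a (q - 4 * b - 4) m1 r hQ0 hr0 hlow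
  rw [hm1] at hle hlt
  obtain ⟨hb1, hb2⟩ := bound4 q b k m a e he0 he1 hqz hb H1 H2 H3 hQ0 hle hlt
  obtain ⟨τ, hτ⟩ := hdvd a (by omega)
  rw [hm1] at hτ
  have h7 : (a + 4) * (q - 4 * b - 4) = a * (q - 4 * b - 4) + 4 * (q - 4 * b - 4) := by ring
  refine ⟨a, τ, e, ha0, by omega, he0, he1, hb1, hb2, by omega, by omega, by linarith⟩

lemma aux4 (s q : ℤ) : ((2 : ℤ) * (6 * s) * q) % 4 = 0 := by
  have : (2 : ℤ) * (6 * s) * q = 4 * (3 * s * q) := by ring
  omega

lemma aux4' (s : ℤ) : ((2 : ℤ) * (6 * s) ^ 2) % 4 = 0 := by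
  have : (2 : ℤ) * (6 * s) ^ 2 = 4 * (18 * s ^ 2) := by ring
  omega

lemma num_even1 (q s k m : ℤ) (hs : 0 < s) (hq : 12 * (6 * s) + 7 ≤ q)
    (H1 : q ^ 2 + q + 1 ≤ 2 * m) (H2 : m < (k + 2) * q) (H3 : k + 6 * (6 * s) + 5 ≤ q)
    (h4 : q % 4 = 0) (hm4 : m % 4 = 0 ∨ m % 4 = 1) :
    ∃ a τ e : ℤ, 0 ≤ a ∧ 0 ≤ τ ∧ 0 ≤ e ∧ e ≤ 1 ∧ a ≤ q - 4 * (6 * s) - 1 ∧ q < 2 * (a + 4) ∧ τ < q ∧
      (a - k) % 2 = 1 ∧
      m = a * (q - 4 * (6 * s)) + 2 * (6 * s) * q - 2 * (6 * s) ^ 2 + 4 * τ + e := by
  apply num_fin1 q (6 * s) k m (m - (m % 4) - 2 * (6 * s) * q + 2 * (6 * s) ^ 2) (m % 4) ((k + 1) % 2)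
    (by omega) (by omega) (by omega) hq H1 H2 H3 rfl (by omega) (by omega) (by omega)
  intro a _
  have e1 : (4 : ℤ) ∣ q - 4 * (6 * s) := by omega
  have e2 : (4 : ℤ) ∣ a * (q - 4 * (6 * s)) := e1.mul_left a
  have e3 := aux4 s q
  have e4 := aux4' s
  omega

lemma num_even4 (q s k m : ℤ) (hs : 0 < s) (hq : 12 * (6 * s) + 7 ≤ q)
    (H1 : q ^ 2 + q + 1 ≤ 2 * m) (H2 : m < (k + 2) * q) (H3 : k + 6 * (6 * s) + 5 ≤ q)
    (h4 : q % 4 = 0) (hm4 : m % 4 = 2 ∨ m % 4 = 3) :
    ∃ a τ e : ℤ, 0 ≤ a ∧ 0 ≤ τ ∧ 0 ≤ e ∧ e ≤ 1 ∧ a ≤ q - 4 * (6 * s) - 1 ∧ q < 2 * (a + 4) ∧ τ < q ∧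
      (a - k) % 2 = 0 ∧
      m = a * (q - 4 * (6 * s) - 4) + 2 * (6 * s) * q - 2 * (6 * s) ^ 2 + 2 * q - 4 * (6 * s) - 2
        + 4 * τ + e := by
  apply num_fin4 q (6 * s) k m (m - (m % 4 - 2) - 2 * (6 * s) * q + 2 * (6 * s) ^ 2 - 2 * q + 4 * (6 * s) + 2)
    (m % 4 - 2) (k % 2)
    (by omega) (by omega) (by omega) hq H1 H2 H3 rfl (by omega) (by omega) (by omega)
  intro a _
  have e1 : (4 : ℤ) ∣ q - 4 * (6 * s) - 4 := by omega
  have e2 : (4 : ℤ) ∣ a * (q - 4 * (6 * s) - 4) := e1.mul_left a
  have e3 := aux4 s q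
  have e4 := aux4' s
  omega

lemma num_odd (q s k m : ℤ) (hs : 0 < s) (hq : 12 * (6 * s) + 7 ≤ q)
    (H1 : q ^ 2 + q + 1 ≤ 2 * m) (H2 : m < (k + 2) * q) (H3 : k + 6 * (6 * s) + 5 ≤ q)
    (h2 : q % 2 = 1) :
    ∃ a τ e : ℤ, 0 ≤ a ∧ 0 ≤ τ ∧ 0 ≤ e ∧ e ≤ 1 ∧ a ≤ q - 4 * (6 * s) - 1 ∧ q < 2 * (a + 4) ∧ τ < q ∧
      (a - k) % 2 = 1 ∧
      m = a * (q - 4 * (6 * s)) + 2 * (6 * s) * q - 2 * (6 * s) ^ 2 + 4 * τ + e := by
  obtain ⟨m1, hm1⟩ : ∃ m1 : ℤ, m1 = m - ((m + k + 1) % 2) - 2 * (6 * s) * q + 2 * (6 * s) ^ 2 := ⟨_, rfl⟩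
  obtain ⟨Q, hQ⟩ : ∃ Q : ℤ, Q = q - 4 * (6 * s) := ⟨_, rfl⟩
  obtain ⟨c, hc⟩ : ∃ c, Q = 2 * c + 1 := ⟨(Q - 1) / 2, by omega⟩
  have e3 := aux4 s q
  have e4 := aux4' s
  have e1 : m1 * Q = 2 * (m1 * c) + m1 := by rw [hc]; ring
  have hQ2 : (4 : ℤ) ∣ Q * Q - 1 := by
    rw [hc]
    exact ⟨c * (c + 1), by ring⟩
  apply num_fin1 q (6 * s) k m m1 ((m + k + 1) % 2) ((m1 * Q) % 4)
    (by omega) (by omega) (by omega) hq H1 H2 H3 hm1 (by omega) (by omega) (by omega)
  intro a ha
  rw [← hQ]
  have ha4 : (4 : ℤ) ∣ a - m1 * Q := by omega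
  have e5 : m1 - a * Q = -(a - m1 * Q) * Q - m1 * (Q * Q - 1) := by ring
  rw [e5]
  exact dvd_sub ((dvd_neg.mpr ha4).mul_right Q) (hQ2.mul_left m1)

variable {F : Type} [Field F] [Fintype F] [DecidableEq F]

lemma four_dvd (h : Even (Fintype.card F)) (h2 : 2 < Fintype.card F) : 4 ∣ Fintype.card F := by
  have h1 : ringChar F = 2 := by
    rw [FiniteField.even_card_iff_char_two]; exact Nat.even_iff.mp h
  have : CharP F 2 := by rw [← h1]; infer_instance
  obtain ⟨n, hp, hn⟩ := FiniteField.card F 2
  rw [hn] at h2 ⊢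
  have : 2 ≤ (n : ℕ) := by
    by_contra hcon
    have : (n : ℕ) = 1 := by have := n.pos; omega
    rw [this] at h2; omega
  exact (by norm_num : (4 : ℕ) = 2 ^ 2) ▸ pow_dvd_pow 2 this

lemma get_D {s q : ℕ} {τ : ℕ} (hs : q < s * s) (hτ : (τ : ℤ) < q) :
    ∃ D : Finset ℕ, (∀ d ∈ D, 1 ≤ d ∧ d ≤ 2 * s) ∧ ∑ d ∈ D, d = τ ∧ D.card ≤ 2 * s := by
  obtain ⟨D, hD, hDs⟩ := subset_sum (2 * s) τ (by
    have h2 : τ < s * s := by
      have : τ < q := by exact_mod_cast hτ
      omega
    nlinarith)
  refine ⟨D, hD, hDs, ?_⟩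
  calc D.card ≤ (Finset.Icc 1 (2 * s)).card := Finset.card_le_card (fun d hd => by
        have := hD d hd; rw [Finset.mem_Icc]; exact this)
    _ = 2 * s := by simp

/-- The main construction. -/
theorem good_mid {k m s : ℕ} (hs : Fintype.card F < s * s)
    (H1 : Fintype.card F ^ 2 + Fintype.card F + 1 ≤ 2 * m) (H2 : m < (k + 2) * Fintype.card F)
    (H3 : k + 36 * s + 5 ≤ Fintype.card F) : Good F k m := by
  obtain ⟨g, hg⟩ := exists_gen (F := F)
  set q := Fintype.card F with hq
  have hq0 : 0 < q := by omega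
  -- lower bound for k
  have hk : q < 2 * k + 3 := by
    have h1 : q * (q + 1) < q * (2 * (k + 2)) := by nlinarith
    have := lt_of_mul_lt_mul_left h1 (Nat.zero_le q)
    omega
  have hs72 : 72 < s := by
    by_contra hcon
    push Not at hcon
    have : 72 * s + 7 ≤ q := by omega
    nlinarith
  have hq72 : 72 * s + 7 ≤ q := by omega
  have hbe : Even (6 * s) := ⟨3 * s, by omega⟩
  -- common finishing step
  have fin1 : (∃ a τ e : ℤ, 0 ≤ a ∧ 0 ≤ τ ∧ 0 ≤ e ∧ e ≤ 1 ∧ a ≤ q - 4 * (6 * s) - 1 ∧ q < 2 * (a + 4)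
      ∧ τ < q ∧ (a - k) % 2 = 1 ∧
      m = a * (q - 4 * (6 * s)) + 2 * (6 * s) * q - 2 * (6 * s) ^ 2 + 4 * τ + e) → Good F k m := by
    rintro ⟨a, τ, e, ha, hτ, he0, he1, hau, hal, hτq, hpar, hm⟩
    lift a to ℕ using ha
    lift τ to ℕ using hτ
    lift e to ℕ using he0
    obtain ⟨D, hD, hDs, hDc⟩ := get_D hs hτq
    apply good1 hg hbe (by omega) D (fun d hd => by have := hD d hd; omega) (a := a) (e := e)
      (by omega) (by omega) (by omega)
    · intro h
      have : a % 2 = k % 2 := h
      omega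
    · right; omega
    · omega
    · omega
    · rw [hDs, hm]; push_cast; ring
  have fin4 : Even q → (∃ a τ e : ℤ, 0 ≤ a ∧ 0 ≤ τ ∧ 0 ≤ e ∧ e ≤ 1 ∧ a ≤ q - 4 * (6 * s) - 1 ∧
      q < 2 * (a + 4) ∧ τ < q ∧ (a - k) % 2 = 0 ∧
      m = a * (q - 4 * (6 * s) - 4) + 2 * (6 * s) * q - 2 * (6 * s) ^ 2 + 2 * q - 4 * (6 * s) - 2
        + 4 * τ + e) → Good F k m := by
    rintro hqe ⟨a, τ, e, ha, hτ, he0, he1, hau, hal, hτq, hpar, hm⟩
    lift a to ℕ using ha
    lift τ to ℕ using hτ
    lift e to ℕ using he0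
    obtain ⟨D, hD, hDs, hDc⟩ := get_D hs hτq
    apply good4 hqe hg hbe (by omega) (by omega) D (fun d hd => by have := hD d hd; omega) (a := a) (e := e)
      (by omega) (by omega) (by omega)
    · intro h
      have : (a + 1) % 2 = k % 2 := h
      omega
    · omega
    · omega
    · rw [hDs, hm]; push_cast; ring
  have H1z : (q : ℤ) ^ 2 + q + 1 ≤ 2 * m := by exact_mod_cast H1
  have H2z : (m : ℤ) < (k + 2) * q := by exact_mod_cast H2
  have H3z : (k : ℤ) + 6 * (6 * s) + 5 ≤ q := by omega
  by_cases hqe : Even q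
  · have h4 : 4 ∣ q := four_dvd hqe (by omega)
    by_cases hmr : m % 4 < 2
    · exact fin1 (num_even1 q s k m (by omega) (by omega) H1z H2z H3z (by omega) (by omega))
    · exact fin4 hqe (num_even4 q s k m (by omega) (by omega) H1z H2z H3z (by omega) (by omega))
  · rw [Nat.not_even_iff] at hqe
    exact fin1 (num_odd q s k m (by omega) (by omega) H1z H2z H3z (by omega))

theorem good_high {k m s : ℕ} (hs : Fintype.card F < s * s)
    (hk : 36 * s + 6 ≤ k) (H3 : k + 36 * s + 5 ≤ Fintype.card F)
    (H1 : Fintype.card F ^ 2 + Fintype.card F + 1 ≤ 2 * m)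
    (hm : m ≤ Fintype.card F ^ 2 + Fintype.card F + 1) : Good F k m := by
  by_cases H2 : m < (k + 2) * Fintype.card F
  · exact good_mid hs H1 H2 H3
  · push Not at H2
    have hcol : Good F (Fintype.card F + 1 - k) (Fintype.card F ^ 2 + Fintype.card F + 1 - m) := by
      apply good_col (by omega) (by omega)
      have e1 : Fintype.card F + 1 - k - 2 = Fintype.card F - 1 - k := by omega
      rw [e1]
      have e2 : (Fintype.card F - 1 - k) * Fintype.card F + (k + 1) * Fintype.card F = Fintype.card F ^ 2 := by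
        rw [← Nat.add_mul, sq]; congr 1; omega
      have e3 : (k + 2) * Fintype.card F = (k + 1) * Fintype.card F + Fintype.card F := by ring
      omega
    have h := good_compl hcol (by omega) (by omega)
    have e1 : Fintype.card F + 1 - (Fintype.card F + 1 - k) = k := by omega
    have e2 : Fintype.card F ^ 2 + Fintype.card F + 1 - (Fintype.card F ^ 2 + Fintype.card F + 1 - m) = m := by omega
    rwa [e1, e2] at h

theorem good_all {k m s : ℕ} (hs : Fintype.card F < s * s)
    (hk : 36 * s + 6 ≤ k) (H3 : k + 36 * s + 5 ≤ Fintype.card F)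
    (hm : m ≤ Fintype.card F ^ 2 + Fintype.card F + 1) : Good F k m := by
  by_cases H1 : Fintype.card F ^ 2 + Fintype.card F + 1 ≤ 2 * m
  · exact good_high hs hk H3 H1 hm
  · have h0 : Good F (Fintype.card F + 1 - k) (Fintype.card F ^ 2 + Fintype.card F + 1 - m) :=
      good_high hs (by omega) (by omega) (by omega) (by omega)
    have h := good_compl h0 (by omega) (by omega)
    have e1 : Fintype.card F + 1 - (Fintype.card F + 1 - k) = k := by omega
    have e2 : Fintype.card F ^ 2 + Fintype.card F + 1 - (Fintype.card F ^ 2 + Fintype.card F + 1 - m) = m := by omega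
    rwa [e1, e2] at h

theorem final : ∃ c : ℝ, ∀ (F : Type) [Field F] [Fintype F] (k : ℕ),
    c * Real.sqrt (Fintype.card F : ℝ) < (k : ℝ) →
    (k : ℝ) < (Fintype.card F : ℝ) + 1 - c * Real.sqrt (Fintype.card F : ℝ) →
    ∀ m : ℕ, m ≤ (Fintype.card F) ^ 2 + Fintype.card F + 1 →
      ∃ S : Set (Projectivization F (Fin 3 → F)), S.ncard = m ∧
        ∀ W : Submodule F (Fin 3 → F), Module.finrank F W = 2 →
          (S ∩ {p : Projectivization F (Fin 3 → F) | p.submodule ≤ W}).ncard ≠ k := by
  refine ⟨100, ?_⟩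
  intro F _ _ k hk1 hk2 m hm
  classical
  apply of_good k m
  have hs : Fintype.card F < (Nat.sqrt (Fintype.card F) + 1) * (Nat.sqrt (Fintype.card F) + 1) :=
    Nat.lt_succ_sqrt _
  have h1 : (Nat.sqrt (Fintype.card F) : ℝ) ≤ Real.sqrt (Fintype.card F : ℝ) := Real.nat_sqrt_le_real_sqrt
  have h2 : (1 : ℝ) ≤ Real.sqrt (Fintype.card F : ℝ) := by
    rw [Real.one_le_sqrt]
    exact_mod_cast Fintype.card_pos
  apply good_all hs
  · have : ((36 * (Nat.sqrt (Fintype.card F) + 1) + 6 : ℕ) : ℝ) ≤ (k : ℝ) := by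
      push_cast
      linarith
    exact_mod_cast this
  · have : ((k + 36 * (Nat.sqrt (Fintype.card F) + 1) + 5 : ℕ) : ℝ) ≤ (Fintype.card F : ℝ) := by
      push_cast
      linarith
    exact_mod_cast this
  · exact hm


end Part7

end Pool.Agent.Lib.Helper20.SecantAvoid
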