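import Mathlib

/-!
Boundary and coboundary maps of the full simplex on `Fin n`, and the proof that the norm of the
boundary map of a finite simplicial complex does not increase with the dimension.

Idea: for `ψ` in the image of the boundary map of the complex `K` (so `ψ` is supported on the
`k`-faces of `K` and has zero boundary), let `e(T)` be the number of `k`-dimensional subsets of
the `(k+1)`-dimensional set `T` that are not in `K`. Then
`∑_T e(T) (δψ(T))² = ∑_v ∑_{s ∉ K} (δ(i_v ψ)(s))² ≥ (n - c) (k + 1) |ψ|²`, while `e(T) ≤ k + 1`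
whenever `δψ(T) ≠ 0`, and `e(T) = 0` when `T ∈ K`.
-/

set_option autoImplicit false
open Finset

namespace Pool.Agent.Lib.Helper20.Simplicial

variable {n : ℕ}

/-- The sign of a vertex `v` relative to a set `s`. -/
noncomputable def sg (v : Fin n) (s : Finset (Fin n)) : ℝ :=
  (-1 : ℝ) ^ (Finset.filter (fun w => w < v) s).card

/-- Contraction (annihilation) by the vertex `v`. -/
noncomputable def an (v : Fin n) (f : Finset (Fin n) → ℝ) : Finset (Fin n) → ℝ :=
  fun t => if v ∈ t then 0 else sg v t * f (insert v t)

/-- Exterior multiplication (creation) by the vertex `v`. -/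
noncomputable def cr (v : Fin n) (f : Finset (Fin n) → ℝ) : Finset (Fin n) → ℝ :=
  fun s => if v ∈ s then sg v s * f (s.erase v) else 0

/-- Boundary in the full simplex. -/
noncomputable def bd (f : Finset (Fin n) → ℝ) : Finset (Fin n) → ℝ :=
  fun t => ∑ v, an v f t

/-- Coboundary in the full simplex. -/
noncomputable def cb (f : Finset (Fin n) → ℝ) : Finset (Fin n) → ℝ :=
  fun t => ∑ v, cr v f t

lemma sg_mul_self (v : Fin n) (s : Finset (Fin n)) : sg v s * sg v s = 1 := by
  unfold sg
  rw [← mul_pow]; simp

lemma sg_insert_self (v : Fin n) (s : Finset (Fin n)) : sg v (insert v s) = sg v s := by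
  unfold sg
  congr 2
  ext w
  simp only [mem_filter, mem_insert]
  constructor
  · rintro ⟨rfl | h, h2⟩
    · exact absurd h2 (lt_irrefl _)
    · exact ⟨h, h2⟩
  · rintro ⟨h, h2⟩; exact ⟨Or.inr h, h2⟩

lemma sg_erase_self (v : Fin n) (s : Finset (Fin n)) : sg v (s.erase v) = sg v s := by
  by_cases h : v ∈ s
  · conv_rhs => rw [← Finset.insert_erase h]
    rw [sg_insert_self]
  · rw [Finset.erase_eq_of_notMem h]

lemma sg_insert_gt {v w : Fin n} (h : v < w) (s : Finset (Fin n)) :
    sg v (insert w s) = sg v s := by
  unfold sg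
  congr 2
  ext u
  simp only [mem_filter, mem_insert]
  constructor
  · rintro ⟨rfl | h1, h2⟩
    · exact absurd h2 (not_lt.mpr h.le)
    · exact ⟨h1, h2⟩
  · rintro ⟨h1, h2⟩; exact ⟨Or.inr h1, h2⟩

lemma sg_insert_lt {v w : Fin n} (h : w < v) {s : Finset (Fin n)} (hs : w ∉ s) :
    sg v (insert w s) = - sg v s := by
  unfold sg
  have : Finset.filter (fun u => u < v) (insert w s) = insert w (Finset.filter (fun u => u < v) s) := by
    rw [Finset.filter_insert]; simp [h]
  rw [this, Finset.card_insert_of_notMem, pow_succ]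
  · ring
  · simp [hs]

lemma an_an {v w : Fin n} (h : v ≠ w) (f : Finset (Fin n) → ℝ) (t : Finset (Fin n)) :
    an v (an w f) t = - an w (an v f) t := by
  unfold an
  by_cases hv : v ∈ t
  · simp [hv]
  by_cases hw : w ∈ t
  · simp [hw]
  have e1 : w ∉ insert v t := by simp [hw, h.symm]
  have e2 : v ∉ insert w t := by simp [hv, h]
  simp only [hv, hw, e1, e2, if_false]
  rw [Finset.insert_comm w v t]
  rcases lt_or_gt_of_ne h with h1 | h1
  · rw [sg_insert_lt h1 hv, sg_insert_gt h1]; ring
  · rw [sg_insert_lt h1 hw, sg_insert_gt h1]; ring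

lemma an_an_self (v : Fin n) (f : Finset (Fin n) → ℝ) (t : Finset (Fin n)) :
    an v (an v f) t = 0 := by
  unfold an
  by_cases hv : v ∈ t <;> simp [hv]

lemma an_an' (v w : Fin n) (f : Finset (Fin n) → ℝ) (t : Finset (Fin n)) :
    an v (an w f) t + an w (an v f) t = 0 := by
  by_cases h : v = w
  · subst h; simp [an_an_self]
  · rw [an_an h]; ring

lemma an_cr {v w : Fin n} (h : v ≠ w) (f : Finset (Fin n) → ℝ) (t : Finset (Fin n)) :
    an v (cr w f) t + cr w (an v f) t = 0 := by
  unfold an cr
  by_cases hv : v ∈ t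
  · have : v ∈ t.erase w := by simp [hv, h]
    simp [hv, this]
  by_cases hw : w ∈ t
  · have e1 : w ∈ insert v t := by simp [hw]
    have e2 : v ∉ t.erase w := by simp [hv]
    simp only [hv, hw, e1, e2, if_false, if_true]
    have e3 : (insert v t).erase w = insert v (t.erase w) := by
      rw [Finset.erase_insert_of_ne h]
    rw [e3]
    have e4 : sg v t = sg v (insert w (t.erase w)) := by rw [Finset.insert_erase hw]
    rcases lt_or_gt_of_ne h with h1 | h1
    · rw [sg_insert_lt h1 hv, e4, sg_insert_gt h1]; ring
    · rw [sg_insert_gt h1, e4, sg_insert_lt h1 (by simp)]; ring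
  · have e1 : w ∉ insert v t := by simp [hw, h.symm]
    simp [hv, hw, e1]

lemma an_cr_self (v : Fin n) (f : Finset (Fin n) → ℝ) (t : Finset (Fin n)) :
    an v (cr v f) t + cr v (an v f) t = f t := by
  unfold an cr
  by_cases hv : v ∈ t
  · simp only [hv, if_true, zero_add, Finset.notMem_erase, if_false]
    rw [Finset.insert_erase hv, sg_erase_self, ← mul_assoc, sg_mul_self, one_mul]
  · simp only [hv, if_false, add_zero, Finset.mem_insert_self, if_true]
    rw [Finset.erase_insert hv, sg_insert_self, ← mul_assoc, sg_mul_self, one_mul]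

lemma cr_an_self (v : Fin n) (f : Finset (Fin n) → ℝ) (t : Finset (Fin n)) :
    cr v (an v f) t = if v ∈ t then f t else 0 := by
  unfold an cr
  by_cases hv : v ∈ t
  · simp only [hv, if_true, Finset.notMem_erase, if_false]
    rw [Finset.insert_erase hv, sg_erase_self, ← mul_assoc, sg_mul_self, one_mul]
  · simp [hv]

lemma adj (v : Fin n) (f g : Finset (Fin n) → ℝ) :
    ∑ t, an v f t * g t = ∑ s, f s * cr v g s := by
  unfold an cr
  have h1 : ∑ t : Finset (Fin n), (if v ∈ t then 0 else sg v t * f (insert v t)) * g t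
      = ∑ t ∈ (Finset.univ : Finset (Finset (Fin n))).filter (fun t => v ∉ t),
          sg v t * f (insert v t) * g t := by
    rw [Finset.sum_filter]
    apply Finset.sum_congr rfl
    intro t _
    by_cases hv : v ∈ t <;> simp [hv]
  have h2 : ∑ s : Finset (Fin n), f s * (if v ∈ s then sg v s * g (s.erase v) else 0)
      = ∑ s ∈ (Finset.univ : Finset (Finset (Fin n))).filter (fun s => v ∈ s),
          f s * (sg v s * g (s.erase v)) := by
    rw [Finset.sum_filter]
    apply Finset.sum_congr rfl
    intro t _
    by_cases hv : v ∈ t <;> simp [hv]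
  rw [h1, h2]
  refine Finset.sum_bij' (fun t _ => insert v t) (fun s _ => s.erase v) ?_ ?_ ?_ ?_ ?_
  · intro t ht; simp
  · intro s hs; simp
  · intro t ht
    simp only [mem_filter, mem_univ, true_and] at ht
    exact Finset.erase_insert ht
  · intro s hs
    simp only [mem_filter, mem_univ, true_and] at hs
    exact Finset.insert_erase hs
  · intro t ht
    simp only [mem_filter, mem_univ, true_and] at ht
    rw [sg_insert_self, Finset.erase_insert ht]; ring

lemma adj_bd (f g : Finset (Fin n) → ℝ) :
    ∑ t, bd f t * g t = ∑ s, f s * cb g s := by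
  unfold bd cb
  simp_rw [Finset.sum_mul, Finset.mul_sum]
  rw [Finset.sum_comm]
  rw [Finset.sum_comm (f := fun s v => f s * cr v g s)]
  exact Finset.sum_congr rfl fun v _ => adj v f g

lemma an_sum (v : Fin n) {ι : Type*} (I : Finset ι) (F : ι → Finset (Fin n) → ℝ) (t : Finset (Fin n)) :
    an v (fun s => ∑ i ∈ I, F i s) t = ∑ i ∈ I, an v (F i) t := by
  unfold an
  by_cases hv : v ∈ t
  · simp [hv]
  · simp [hv, Finset.mul_sum]

lemma cr_sum (v : Fin n) {ι : Type*} (I : Finset ι) (F : ι → Finset (Fin n) → ℝ) (t : Finset (Fin n)) :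
    cr v (fun s => ∑ i ∈ I, F i s) t = ∑ i ∈ I, cr v (F i) t := by
  unfold cr
  by_cases hv : v ∈ t
  · simp [hv, Finset.mul_sum]
  · simp [hv]

lemma bd_bd (f : Finset (Fin n) → ℝ) (t : Finset (Fin n)) : bd (bd f) t = 0 := by
  have h1 : bd (bd f) t = ∑ v, ∑ w, an v (an w f) t := by
    unfold bd
    apply Finset.sum_congr rfl
    intro v _
    exact an_sum v Finset.univ (fun w => an w f) t
  have h2 : bd (bd f) t = ∑ v, ∑ w, an w (an v f) t := by
    rw [h1, Finset.sum_comm]
  have h3 : bd (bd f) t + bd (bd f) t = 0 := by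
    conv_lhs => rw [h1]
    rw [← h1]
    nth_rewrite 1 [h1]
    rw [h2, ← Finset.sum_add_distrib]
    apply Finset.sum_eq_zero
    intro v _
    rw [← Finset.sum_add_distrib]
    apply Finset.sum_eq_zero
    intro w _
    exact an_an' v w f t
  linarith

/-- `an v` anticommutes with the boundary. -/
lemma bd_an (v : Fin n) (f : Finset (Fin n) → ℝ) (t : Finset (Fin n)) :
    bd (an v f) t + an v (bd f) t = 0 := by
  unfold bd
  rw [an_sum v Finset.univ (fun w => an w f) t, ← Finset.sum_add_distrib]
  exact Finset.sum_eq_zero fun w _ => an_an' w v f t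

/-- Cartan formula. -/
lemma an_cb (v : Fin n) (f : Finset (Fin n) → ℝ) (t : Finset (Fin n)) :
    an v (cb f) t + cb (an v f) t = f t := by
  unfold cb
  rw [an_sum v Finset.univ (fun w => cr w f) t, ← Finset.sum_add_distrib]
  rw [Finset.sum_eq_single v]
  · exact an_cr_self v f t
  · intro w _ hw
    exact an_cr hw.symm f t
  · simp

lemma bd_cb (f : Finset (Fin n) → ℝ) (t : Finset (Fin n)) :
    bd (cb f) t + cb (bd f) t = n * f t := by
  have h1 : cb (bd f) t = ∑ v, cb (an v f) t := by
    unfold cb bd
    simp_rw [cr_sum]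
    rw [Finset.sum_comm]
  have h2 : bd (cb f) t = ∑ v, an v (cb f) t := rfl
  rw [h1, h2, ← Finset.sum_add_distrib]
  rw [Finset.sum_congr rfl fun v _ => an_cb v f t]
  simp

/-- If `bd f = 0` then the squared norm of `cb f` is `n` times that of `f`. -/
lemma norm_cb (f : Finset (Fin n) → ℝ) (hf : ∀ t, bd f t = 0) :
    ∑ s, cb f s * cb f s = n * ∑ s, f s * f s := by
  rw [← adj_bd (cb f) f, Finset.mul_sum]
  apply Finset.sum_congr rfl
  intro t _
  have h := bd_cb f t
  have h2 : cb (bd f) t = 0 := by
    have : bd f = fun _ => 0 := funext hf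
    rw [this]
    unfold cb cr
    simp
  rw [h2, add_zero] at h
  rw [h]; ring

lemma norm_an (v : Fin n) (f : Finset (Fin n) → ℝ) :
    ∑ t, an v f t * an v f t = ∑ s, if v ∈ s then f s * f s else 0 := by
  rw [adj v f (an v f)]
  apply Finset.sum_congr rfl
  intro s _
  rw [cr_an_self]
  split_ifs <;> simp

lemma sum_norm_an (f : Finset (Fin n) → ℝ) (m : ℕ) (hf : ∀ s, f s ≠ 0 → s.card = m) :
    ∑ v, ∑ t, an v f t * an v f t = m * ∑ s, f s * f s := by
  simp_rw [norm_an]
  rw [Finset.sum_comm, Finset.mul_sum]
  apply Finset.sum_congr rfl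
  intro s _
  by_cases h : f s = 0
  · simp [h]
  · rw [← hf s h]
    simp [Finset.sum_ite_mem]


open Matrix

/-- Restriction of a function to the members of `K` of size `m`. -/
noncomputable def res (K : Finset (Finset (Fin n))) (m : ℕ) (f : Finset (Fin n) → ℝ) :
    Finset (Fin n) → ℝ :=
  fun s => if s ∈ K ∧ s.card = m then f s else 0

lemma mulVec_eq (K : Finset (Finset (Fin n)))
    (D : ℕ → Matrix (Finset (Fin n)) (Finset (Fin n)) ℝ)
    (hD : ∀ (m : ℕ) (t s : Finset (Fin n)),
          D m t s =
            if s ∈ K ∧ s.card = m then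
              ∑ v ∈ s, (if t = s.erase v then
                (-1 : ℝ) ^ (Finset.filter (fun w => w < v) s).card else 0)
            else 0) (m : ℕ) (y : Finset (Fin n) → ℝ) :
    D m *ᵥ y = bd (res K m y) := by
  funext t
  have h1 : (D m *ᵥ y) t = ∑ s, ∑ v, (if v ∈ s ∧ t = s.erase v then sg v s * res K m y s else 0) := by
    simp only [Matrix.mulVec, dotProduct]
    apply Finset.sum_congr rfl
    intro s _
    rw [hD]
    by_cases hs : s ∈ K ∧ s.card = m
    · rw [if_pos hs, Finset.sum_mul]
      have : res K m y s = y s := by simp [res, hs]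
      rw [this]
      rw [← Finset.sum_subset (Finset.subset_univ s)]
      · apply Finset.sum_congr rfl
        intro v hv
        by_cases ht : t = s.erase v
        · rw [if_pos ht, if_pos ⟨hv, ht⟩]; rfl
        · rw [if_neg ht, if_neg (fun h => ht h.2)]; simp
      · intro v _ hv
        rw [if_neg (fun h => hv h.1)]
    · rw [if_neg hs]
      have : res K m y s = 0 := by simp [res, hs]
      rw [this]; simp
  rw [h1, Finset.sum_comm]
  unfold bd
  apply Finset.sum_congr rfl
  intro v _
  unfold an
  by_cases hv : v ∈ t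
  · rw [if_pos hv]
    apply Finset.sum_eq_zero
    intro s _
    rw [if_neg]
    rintro ⟨h2, rfl⟩
    simp at hv
  · rw [if_neg hv, Finset.sum_eq_single (insert v t)]
    · rw [if_pos ⟨Finset.mem_insert_self _ _, (Finset.erase_insert hv).symm⟩, sg_insert_self]
    · intro s _ hs
      rw [if_neg]
      rintro ⟨h2, rfl⟩
      exact hs (Finset.insert_erase h2).symm
    · simp

lemma cs (f g : Finset (Fin n) → ℝ) :
    (∑ s, f s * g s) ^ 2 ≤ (∑ s, f s * f s) * ∑ s, g s * g s := by
  have := Finset.sum_mul_sq_le_sq_mul_sq (Finset.univ : Finset (Finset (Fin n))) f g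
  simpa [sq] using this

lemma nn (f : Finset (Fin n) → ℝ) : 0 ≤ ∑ s, f s * f s :=
  Finset.sum_nonneg fun s _ => mul_self_nonneg _

/-- the key inequality -/
theorem key (K : Finset (Finset (Fin n)))
    (hK : ∀ s ∈ K, ∀ t : Finset (Fin n), t ⊆ s → t.Nonempty → t ∈ K)
    (k : ℕ) (c : ℝ)
    (hc : ∀ y : Finset (Fin n) → ℝ,
      ∑ t, bd (res K (k + 1) y) t * bd (res K (k + 1) y) t ≤ c * ∑ t, y t * y t)
    (x : Finset (Fin n) → ℝ) :
    ∑ t, bd (res K (k + 2) x) t * bd (res K (k + 2) x) t ≤ c * ∑ t, x t * x t := by
  classical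
  -- nonnegativity of c
  have hc0 : 0 ≤ c := by
    have h := hc (fun t => if t = ∅ then 1 else 0)
    have h1 := nn (bd (res K (k + 1) (fun t : Finset (Fin n) => if t = ∅ then (1 : ℝ) else 0)))
    have h2 : ∑ t : Finset (Fin n), (if t = ∅ then (1 : ℝ) else 0) * (if t = ∅ then (1 : ℝ) else 0) = 1 := by
      simp
    rw [h2, mul_one] at h
    linarith
  -- transposed form of the hypothesis
  have hT : ∀ f : Finset (Fin n) → ℝ,
      ∑ s, res K (k + 1) (cb f) s * res K (k + 1) (cb f) s ≤ c * ∑ t, f t * f t := by
    intro f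
    set g := res K (k + 1) (cb f) with hg
    have hgg : res K (k + 1) g = g := by
      funext s
      simp only [hg, res]
      split_ifs <;> rfl
    have h1 := hc g
    rw [hgg] at h1
    have h2 : ∑ t, bd g t * f t = ∑ s, g s * g s := by
      rw [adj_bd]
      apply Finset.sum_congr rfl
      intro s _
      simp only [hg, res]
      split_ifs <;> simp
    have h3 := cs (bd g) f
    rw [h2] at h3
    have h4 := nn g
    have h5 := nn f
    by_contra hcon
    push Not at hcon
    have h6 : 0 < ∑ s, g s * g s := lt_of_le_of_lt (mul_nonneg hc0 h5) hcon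
    nlinarith [mul_le_mul_of_nonneg_right h1 h5]
  -- the chain φ and its boundary ψ
  set φ := res K (k + 2) x with hφ
  set ψ := bd φ with hψ
  have hφs : ∀ s, φ s ≠ 0 → s ∈ K ∧ s.card = k + 2 := by
    intro s hs
    by_contra h
    exact hs (by simp [hφ, res, h])
  have hψs : ∀ t, ψ t ≠ 0 → t.card = k + 1 ∧ t ∈ K := by
    intro t ht
    rw [hψ] at ht
    unfold bd at ht
    obtain ⟨v, -, hv⟩ := Finset.exists_ne_zero_of_sum_ne_zero ht
    unfold an at hv
    by_cases hvt : v ∈ t
    · simp [hvt] at hv
    · rw [if_neg hvt] at hv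
      have h1 := hφs (insert v t) (right_ne_zero_of_mul hv)
      rw [Finset.card_insert_of_notMem hvt] at h1
      have hcard : t.card = k + 1 := by omega
      refine ⟨hcard, hK _ h1.1 t (Finset.subset_insert _ _) ?_⟩
      rw [← Finset.card_pos]; omega
  have hbψ : ∀ t, bd ψ t = 0 := fun t => bd_bd φ t
  -- Q
  set Q := ∑ s, res K (k + 2) (cb ψ) s * res K (k + 2) (cb ψ) s with hQ
  -- main claim
  have main : Q ≤ c * ∑ t, ψ t * ψ t := by
    -- for every vertex
    have step : ∀ v : Fin n, (n - c) * ∑ t, an v ψ t * an v ψ t ≤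
        ∑ s, if s ∉ K ∧ s.card = k + 1 then an v (cb ψ) s * an v (cb ψ) s else 0 := by
      intro v
      have hb : ∀ t, bd (an v ψ) t = 0 := by
        intro t
        have h := bd_an v ψ t
        have h2 : an v (bd ψ) t = 0 := by
          unfold an
          simp [hbψ]
        linarith
      have h1 := norm_cb (an v ψ) hb
      have h2 := hT (an v ψ)
      have h3 : ∑ s, cb (an v ψ) s * cb (an v ψ) s =
          ∑ s, res K (k + 1) (cb (an v ψ)) s * res K (k + 1) (cb (an v ψ)) s +
          ∑ s, if s ∉ K ∧ s.card = k + 1 then an v (cb ψ) s * an v (cb ψ) s else 0 := by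
        rw [← Finset.sum_add_distrib]
        apply Finset.sum_congr rfl
        intro s _
        by_cases hs : s.card = k + 1
        · by_cases hsK : s ∈ K
          · simp [res, hs, hsK]
          · have hz : ψ s = 0 := by
              by_contra h
              exact hsK (hψs s h).2
            have h4 := an_cb v ψ s
            rw [hz] at h4
            have h5 : cb (an v ψ) s = - an v (cb ψ) s := by linarith
            simp only [res, hs, hsK, not_false_eq_true, and_self, if_true, false_and, if_false]
            rw [h5]; ring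
        · have hz : cb (an v ψ) s = 0 := by
            unfold cb
            apply Finset.sum_eq_zero
            intro w _
            unfold cr
            by_cases hw : w ∈ s
            · rw [if_pos hw]
              unfold an
              by_cases hv : v ∈ s.erase w
              · simp [hv]
              · rw [if_neg hv]
                have : ψ (insert v (s.erase w)) = 0 := by
                  by_contra h
                  have h5 := (hψs _ h).1
                  rw [Finset.card_insert_of_notMem hv, Finset.card_erase_of_mem hw] at h5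
                  have : 0 < s.card := Finset.card_pos.mpr ⟨w, hw⟩
                  omega
                rw [this]; ring
            · rw [if_neg hw]
          simp [res, hs, hz]
      rw [h3] at h1
      nlinarith
    have step2 := Finset.sum_le_sum fun v (_ : v ∈ (Finset.univ : Finset (Fin n))) => step v
    rw [← Finset.mul_sum, sum_norm_an ψ (k + 1) (fun s hs => (hψs s hs).1)] at step2
    -- count
    have step3 : ∑ v : Fin n, ∑ s, (if s ∉ K ∧ s.card = k + 1 then an v (cb ψ) s * an v (cb ψ) s else 0)
        ≤ ((k + 1 : ℕ) : ℝ) * (∑ s, cb ψ s * cb ψ s - Q) := by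
      have e1 : ∑ v : Fin n, ∑ s, (if s ∉ K ∧ s.card = k + 1 then an v (cb ψ) s * an v (cb ψ) s else 0)
          = ∑ T : Finset (Fin n), ∑ v : Fin n,
            (if v ∈ T ∧ T.erase v ∉ K ∧ T.card = k + 2 then cb ψ T * cb ψ T else 0) := by
        rw [Finset.sum_comm (s := (Finset.univ : Finset (Finset (Fin n))))]
        apply Finset.sum_congr rfl
        intro v _
        -- reindex s ↦ insert v s
        rw [← Finset.sum_filter_add_sum_filter_not (Finset.univ : Finset (Finset (Fin n))) (fun s => v ∉ s)]
        rw [← Finset.sum_filter_add_sum_filter_not (Finset.univ : Finset (Finset (Fin n))) (fun s => v ∈ s)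
          (f := fun T => (if v ∈ T ∧ T.erase v ∉ K ∧ T.card = k + 2 then cb ψ T * cb ψ T else 0))]
        congr 1
        · refine Finset.sum_bij' (fun s _ => insert v s) (fun T _ => T.erase v) ?_ ?_ ?_ ?_ ?_
          · intro t ht; simp
          · intro s hs; simp
          · intro t ht
            simp only [mem_filter, mem_univ, true_and] at ht
            exact Finset.erase_insert ht
          · intro s hs
            simp only [mem_filter, mem_univ, true_and] at hs
            exact Finset.insert_erase hs
          · intro t ht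
            simp only [mem_filter, mem_univ, true_and] at ht
            rw [Finset.erase_insert ht, Finset.card_insert_of_notMem ht]
            simp only [Finset.mem_insert_self, true_and]
            by_cases h : t ∉ K ∧ t.card = k + 1
            · have h' : t ∉ K ∧ t.card + 1 = k + 2 := ⟨h.1, by omega⟩
              rw [if_pos h, if_pos h']
              unfold an
              rw [if_neg ht]
              have := sg_mul_self v t
              calc sg v t * cb ψ (insert v t) * (sg v t * cb ψ (insert v t))
                  = (sg v t * sg v t) * (cb ψ (insert v t) * cb ψ (insert v t)) := by ring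
                _ = _ := by rw [this, one_mul]
            · have h' : ¬ (t ∉ K ∧ t.card + 1 = k + 2) := fun h2 => h ⟨h2.1, by omega⟩
              rw [if_neg h, if_neg h']
        · rw [Finset.sum_eq_zero, Finset.sum_eq_zero]
          · intro s hs
            simp only [mem_filter, mem_univ, true_and] at hs
            simp [hs]
          · intro s hs
            simp only [mem_filter, mem_univ, true_and, not_not] at hs
            unfold an
            simp [hs]
      rw [e1, hQ, ← Finset.sum_sub_distrib, Finset.mul_sum]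
      apply Finset.sum_le_sum
      intro T _
      rw [Finset.sum_ite, Finset.sum_const_zero, add_zero, Finset.sum_const, nsmul_eq_mul]
      by_cases hT0 : cb ψ T = 0
      · simp [res, hT0]
      by_cases hTK : T ∈ K ∧ T.card = k + 2
      · -- all facets in K
        have : (Finset.univ.filter fun v => v ∈ T ∧ T.erase v ∉ K ∧ T.card = k + 2) = ∅ := by
          apply Finset.filter_eq_empty_iff.mpr
          rintro v _ ⟨h1, h2, h3⟩
          apply h2
          apply hK T hTK.1 _ (Finset.erase_subset _ _)
          rw [← Finset.card_pos, Finset.card_erase_of_mem h1]; omega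
        rw [this]
        simp [res, hTK]
      · have hres : res K (k + 2) (cb ψ) T = 0 := by simp only [res, if_neg hTK]
        rw [hres, mul_zero, sub_zero]
        apply mul_le_mul_of_nonneg_right _ (mul_self_nonneg _)
        -- some facet is in K
        have hex : ∃ u ∈ T, ψ (T.erase u) ≠ 0 := by
          unfold cb at hT0
          obtain ⟨u, -, hu⟩ := Finset.exists_ne_zero_of_sum_ne_zero hT0
          unfold cr at hu
          by_cases huT : u ∈ T
          · rw [if_pos huT] at hu
            exact ⟨u, huT, right_ne_zero_of_mul hu⟩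
          · rw [if_neg huT] at hu; exact absurd rfl hu
        obtain ⟨u, huT, hu⟩ := hex
        have h1 := hψs _ hu
        rw [Finset.card_erase_of_mem huT] at h1
        have hTpos : 0 < T.card := Finset.card_pos.mpr ⟨u, huT⟩
        have hsub : (Finset.univ.filter fun v => v ∈ T ∧ T.erase v ∉ K ∧ T.card = k + 2) ⊆ T.erase u := by
          intro v hv
          simp only [mem_filter, mem_univ, true_and] at hv
          rw [Finset.mem_erase]
          refine ⟨?_, hv.1⟩
          rintro rfl
          exact hv.2.1 h1.2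
        have h2 := Finset.card_le_card hsub
        rw [Finset.card_erase_of_mem huT] at h2
        have h3 : (Finset.univ.filter fun v => v ∈ T ∧ T.erase v ∉ K ∧ T.card = k + 2).card ≤ k + 1 := by
          omega
        exact_mod_cast h3
    rw [norm_cb ψ hbψ] at step3
    have hk1 : (0 : ℝ) < ((k + 1 : ℕ) : ℝ) := by positivity
    have h6 := le_trans step2 step3
    have h7 : ((k + 1 : ℕ) : ℝ) * ((n - c) * ∑ s, ψ s * ψ s) ≤ ((k + 1 : ℕ) : ℝ) * (n * ∑ s, ψ s * ψ s - Q) := by
      calc _ = (n - c) * (((k + 1 : ℕ) : ℝ) * ∑ s, ψ s * ψ s) := by ring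
        _ ≤ _ := h6
    have h8 := le_of_mul_le_mul_left h7 hk1
    nlinarith
  -- conclusion by Cauchy-Schwarz
  have h1 : ∑ t, ψ t * ψ t = ∑ s, φ s * res K (k + 2) (cb ψ) s := by
    have : ∑ t, ψ t * ψ t = ∑ t, bd φ t * ψ t := rfl
    rw [this, adj_bd]
    apply Finset.sum_congr rfl
    intro s _
    by_cases h : s ∈ K ∧ s.card = k + 2
    · simp [res, h]
    · have : φ s = 0 := by
        by_contra h2
        exact h (hφs s h2)
      simp [this]
  have h2 := cs φ (res K (k + 2) (cb ψ))
  rw [← h1] at h2
  have h3 := nn φ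
  have h4 := nn ψ
  have h5 : ∑ t, φ t * φ t ≤ ∑ t, x t * x t := by
    apply Finset.sum_le_sum
    intro t _
    simp only [hφ, res]
    split_ifs
    · exact le_refl _
    · simp [mul_self_nonneg]
  have h6 : ∑ t, ψ t * ψ t ≤ c * ∑ t, φ t * φ t := by
    by_contra hcon
    push Not at hcon
    have h7 : 0 < ∑ t, ψ t * ψ t := lt_of_le_of_lt (mul_nonneg hc0 h3) hcon
    nlinarith [mul_le_mul_of_nonneg_left main h3]
  calc ∑ t, ψ t * ψ t ≤ c * ∑ t, φ t * φ t := h6
    _ ≤ _ := mul_le_mul_of_nonneg_left h5 hc0

theorem main (n : ℕ) (K : Finset (Finset (Fin n)))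
    (hK : ∀ s ∈ K, ∀ t : Finset (Fin n), t ⊆ s → t.Nonempty → t ∈ K)
    (D : ℕ → Matrix (Finset (Fin n)) (Finset (Fin n)) ℝ)
    (hD : ∀ (m : ℕ) (t s : Finset (Fin n)),
          D m t s =
            if s ∈ K ∧ s.card = m then
              ∑ v ∈ s, (if t = s.erase v then
                (-1 : ℝ) ^ (Finset.filter (fun w => w < v) s).card else 0)
            else 0)
    (k : ℕ) (c : ℝ)
    (hc : ∀ y : Finset (Fin n) → ℝ,
              (D (k + 1) *ᵥ y) ⬝ᵥ (D (k + 1) *ᵥ y) ≤ c * (y ⬝ᵥ y))
    (x : Finset (Fin n) → ℝ) :
    (D (k + 2) *ᵥ x) ⬝ᵥ (D (k + 2) *ᵥ x) ≤ c * (x ⬝ᵥ x) := by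
  have h := key K hK k c (fun y => by
    have := hc y
    rw [mulVec_eq K D hD] at this
    simpa [dotProduct] using this) x
  rw [mulVec_eq K D hD]
  simpa [dotProduct] using h

end Pool.Agent.Lib.Helper20.Simplicial
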